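import Mathlib

set_option autoImplicit false
open Matrix

namespace Pool.Agent.H68.Cox

/-- The Coxeter matrix of the free product of three copies of `Z/2`. -/
def M3 : CoxeterMatrix (Fin 3) where
  M := Matrix.of fun i j => if i = j then 1 else 0
  isSymm := by
    ext i j
    fin_cases i <;> fin_cases j <;> simp
  diagonal := by intro i; simp
  off_diagonal := by intro i j h; simp [h]

/-- integer matrices of the three half-turns, acting on binary quadratic forms -/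
def AZ : Fin 3 → Matrix (Fin 3) (Fin 3) ℤ
  | 0 => !![1, 4, 4; -1, -3, -2; 1, 2, 1]
  | 1 => !![0, 0, 1; 0, -1, 0; 1, 0, 0]
  | 2 => !![1, -4, 4; 1, -3, 2; 1, -2, 1]

/-- the same matrices over the reals -/
def A (i : Fin 3) : Matrix (Fin 3) (Fin 3) ℝ := (AZ i).map (Int.castRingHom ℝ)

lemma AZ_sq (i : Fin 3) : AZ i * AZ i = 1 := by
  fin_cases i <;> decide

lemma A_sq (i : Fin 3) : A i * A i = 1 := by
  unfold A
  rw [← Matrix.map_mul, AZ_sq]
  simp

/-- the generators as units -/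
def fU (i : Fin 3) : (Matrix (Fin 3) (Fin 3) ℝ)ˣ := ⟨A i, A i, A_sq i, A_sq i⟩

lemma fU_liftable : M3.IsLiftable fU := by
  intro i j
  by_cases h : i = j
  · subst h
    have : M3 i i = 1 := M3.diagonal i
    rw [this, pow_one]
    ext1
    simp [fU, A_sq]
  · have : M3 i j = 0 := by
      show (if i = j then 1 else 0) = 0
      simp [h]
    rw [this, pow_zero]

/-- the group -/
abbrev W3 : Type := M3.Group

/-- the Coxeter system -/
abbrev cs3 : CoxeterSystem M3 W3 := M3.toCoxeterSystem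

/-- the representation -/
noncomputable def rho : W3 →* (Matrix (Fin 3) (Fin 3) ℝ)ˣ := cs3.lift ⟨fU, fU_liftable⟩

lemma rho_simple (i : Fin 3) : rho (cs3.simple i) = fU i :=
  cs3.lift_apply_simple fU_liftable i

lemma rho_simple_val (i : Fin 3) : (rho (cs3.simple i)).val = A i := by
  rw [rho_simple]; rfl

lemma A0_mulVec (x : Fin 3 → ℝ) : A 0 *ᵥ x =
    ![x 0 + 4 * x 1 + 4 * x 2, - x 0 - 3 * x 1 - 2 * x 2, x 0 + 2 * x 1 + x 2] := by
  ext i
  fin_cases i <;> simp [A, AZ, Matrix.mulVec, dotProduct, Fin.sum_univ_three] <;> ring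

lemma A1_mulVec (x : Fin 3 → ℝ) : A 1 *ᵥ x = ![x 2, - x 1, x 0] := by
  ext i
  fin_cases i <;> simp [A, AZ, Matrix.mulVec, dotProduct, Fin.sum_univ_three]

lemma A2_mulVec (x : Fin 3 → ℝ) : A 2 *ᵥ x =
    ![x 0 - 4 * x 1 + 4 * x 2, x 0 - 3 * x 1 + 2 * x 2, x 0 - 2 * x 1 + x 2] := by
  ext i
  fin_cases i <;> simp [A, AZ, Matrix.mulVec, dotProduct, Fin.sum_univ_three] <;> ring

/-- The cone of positive definite binary quadratic forms `x 0 X^2 + 2 x 1 X Y + x 2 Y^2`. -/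
def K : Set (Fin 3 → ℝ) := {x | 0 < x 2 ∧ (x 1) ^ 2 < x 0 * x 2}

lemma K_pos0 {x : Fin 3 → ℝ} (h : x ∈ K) : 0 < x 0 := by
  obtain ⟨h2, h1⟩ := h
  have : 0 < x 0 * x 2 := lt_of_le_of_lt (sq_nonneg _) h1
  exact (pos_iff_pos_of_mul_pos this).mpr h2

lemma K_isOpen : IsOpen K := by
  have h1 : Continuous fun x : Fin 3 → ℝ => (x 1) ^ 2 := by fun_prop
  have h2 : Continuous fun x : Fin 3 → ℝ => x 0 * x 2 := by fun_prop
  exact (isOpen_lt continuous_const (continuous_apply 2)).inter (isOpen_lt h1 h2)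

lemma K_smul {x : Fin 3 → ℝ} (h : x ∈ K) {t : ℝ} (ht : 0 < t) : t • x ∈ K := by
  obtain ⟨h2, h1⟩ := h
  refine ⟨by simp only [Pi.smul_apply, smul_eq_mul]; positivity, ?_⟩
  simp only [Pi.smul_apply, smul_eq_mul]
  have : 0 < t ^ 2 * (x 0 * x 2 - x 1 ^ 2) := by
    have : 0 < x 0 * x 2 - x 1 ^ 2 := by linarith
    positivity
  nlinarith

lemma K_add {x y : Fin 3 → ℝ} (hx : x ∈ K) (hy : y ∈ K) : x + y ∈ K := by
  have hx0 := K_pos0 hx
  have hy0 := K_pos0 hy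
  obtain ⟨hx2, hx1⟩ := hx
  obtain ⟨hy2, hy1⟩ := hy
  refine ⟨by simp only [Pi.add_apply]; positivity, ?_⟩
  simp only [Pi.add_apply]
  -- the quadratic form in (x2,y2)
  have key : 0 < (x 2 * y 2) * ((x 0 + y 0) * (x 2 + y 2) - (x 1 + y 1) ^ 2) := by
    have e : (x 2 * y 2) * ((x 0 + y 0) * (x 2 + y 2) - (x 1 + y 1) ^ 2) =
        (x 0 * x 2 - x 1 ^ 2) * (y 2 * (x 2 + y 2)) + (y 0 * y 2 - y 1 ^ 2) * (x 2 * (x 2 + y 2))
          + (x 1 * y 2 - y 1 * x 2) ^ 2 := by ring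
    rw [e]
    have h1 : 0 < x 0 * x 2 - x 1 ^ 2 := by linarith
    have h2 : 0 < y 0 * y 2 - y 1 ^ 2 := by linarith
    positivity
  have h3 : 0 < x 2 * y 2 := by positivity
  have := (pos_iff_pos_of_mul_pos key).mp h3
  linarith

lemma K_convex : Convex ℝ K := by
  intro x hx y hy a b ha hb hab
  rcases eq_or_lt_of_le ha with ha | ha
  · have : b = 1 := by linarith
    subst this
    simpa [← ha] using hy
  rcases eq_or_lt_of_le hb with hb | hb
  · have : a = 1 := by linarith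
    subst this
    simpa [← hb] using hx
  exact K_add (K_smul hx ha) (K_smul hy hb)

lemma K_closure_sub : closure K ⊆ {x | 0 ≤ x 0 ∧ 0 ≤ x 2 ∧ (x 1) ^ 2 ≤ x 0 * x 2} := by
  apply closure_minimal
  · intro x hx
    exact ⟨(K_pos0 hx).le, hx.1.le, hx.2.le⟩
  · have h1 : Continuous fun x : Fin 3 → ℝ => (x 1) ^ 2 := by fun_prop
    have h2 : Continuous fun x : Fin 3 → ℝ => x 0 * x 2 := by fun_prop
    exact (isClosed_le continuous_const (continuous_apply 0)).inter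
      ((isClosed_le continuous_const (continuous_apply 2)).inter (isClosed_le h1 h2))

lemma lin_nonneg_const {a b : ℝ} (h : ∀ t : ℝ, 0 ≤ a + t * b) : b = 0 := by
  by_contra hb
  have h1 := h (-(a + 1) / b)
  have : -(a + 1) / b * b = -(a + 1) := by field_simp
  rw [this] at h1
  linarith

lemma K_proper (x v : Fin 3 → ℝ) (hv : v ≠ 0) : ∃ t : ℝ, x + t • v ∉ closure K := by
  by_contra hcon
  push Not at hcon
  have h := fun t => K_closure_sub (hcon t)
  simp only [Set.mem_ofPred_eq, Pi.add_apply, Pi.smul_apply, smul_eq_mul] at h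
  have h0 : v 0 = 0 := lin_nonneg_const (fun t => (h t).1)
  have h2 : v 2 = 0 := lin_nonneg_const (fun t => (h t).2.1)
  have h1 : v 1 = 0 := by
    have h3 : ∀ t : ℝ, (x 1 + t * v 1) ^ 2 ≤ x 0 * x 2 := by
      intro t
      have := (h t).2.2
      simpa [h0, h2] using this
    apply lin_nonneg_const (a := x 0 * x 2 + 1 + x 1)
    intro t
    have := h3 (-t)
    nlinarith [sq_nonneg (x 1 + -t * v 1 - 1), sq_nonneg (x 1 + -t * v 1 + 1), h3 t, sq_nonneg (x 1 + t * v 1 + 1)]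
  apply hv
  ext i
  fin_cases i
  · exact h0
  · exact h1
  · exact h2

lemma A_mem_K (i : Fin 3) {x : Fin 3 → ℝ} (hx : x ∈ K) : A i *ᵥ x ∈ K := by
  have hx0 := K_pos0 hx
  obtain ⟨hx2, hx1⟩ := hx
  fin_cases i
  · simp only [Fin.zero_eta]
    rw [A0_mulVec]
    refine ⟨?_, ?_⟩
    · simp only [Fin.isValue, cons_val]
      have : 0 < x 2 * (x 0 + 2 * x 1 + x 2) := by nlinarith [sq_nonneg (x 1 + x 2)]
      exact (pos_iff_pos_of_mul_pos this).mp hx2
    · simp only [Fin.isValue, cons_val]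
      nlinarith
  · simp only [Fin.mk_one]
    rw [A1_mulVec]
    refine ⟨?_, ?_⟩
    · simpa using hx0
    · simp only [Fin.isValue, cons_val]
      nlinarith
  · simp only [Fin.reduceFinMk]
    rw [A2_mulVec]
    refine ⟨?_, ?_⟩
    · simp only [Fin.isValue, cons_val]
      have : 0 < x 2 * (x 0 - 2 * x 1 + x 2) := by nlinarith [sq_nonneg (x 1 - x 2)]
      exact (pos_iff_pos_of_mul_pos this).mp hx2
    · simp only [Fin.isValue, cons_val]
      nlinarith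

lemma rho_mul_mulVec (w w' : W3) (x : Fin 3 → ℝ) :
    (rho (w * w')).val *ᵥ x = (rho w).val *ᵥ ((rho w').val *ᵥ x) := by
  rw [map_mul, Units.val_mul, Matrix.mulVec_mulVec]

lemma rho_mem_K (w : W3) : ∀ x ∈ K, (rho w).val *ᵥ x ∈ K := by
  induction w using cs3.simple_induction_left with
  | one => intro x hx; simpa using hx
  | mul_simple_left w i ih =>
    intro x hx
    rw [rho_mul_mulVec, rho_simple_val]
    exact A_mem_K i (ih x hx)

lemma rho_int (w : W3) : ∃ N : Matrix (Fin 3) (Fin 3) ℤ,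
    (rho w).val = N.map (Int.castRingHom ℝ) ∧ N.det = 1 := by
  induction w using cs3.simple_induction_left with
  | one => exact ⟨1, by simp, by simp⟩
  | mul_simple_left w i ih =>
    obtain ⟨N, hN, hd⟩ := ih
    refine ⟨AZ i * N, ?_, ?_⟩
    · rw [map_mul, Units.val_mul, rho_simple_val, hN, Matrix.map_mul]
      rfl
    · rw [Matrix.det_mul, hd, mul_one]
      fin_cases i <;> simp [AZ, Matrix.det_fin_three]

lemma rho_det (w : W3) : (rho w).val.det = 1 := by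
  obtain ⟨N, hN, hd⟩ := rho_int w
  rw [hN, ← RingHom.mapMatrix_apply, ← RingHom.map_det, hd]
  simp

lemma rho_discrete (w : W3)
    (h : ∀ i j, |(rho w).val i j - (1 : Matrix (Fin 3) (Fin 3) ℝ) i j| < 1) : rho w = 1 := by
  obtain ⟨N, hN, hd⟩ := rho_int w
  have hN1 : N = 1 := by
    ext i j
    have h1 := h i j
    rw [hN] at h1
    have e : (1 : Matrix (Fin 3) (Fin 3) ℝ) i j = (((1 : Matrix (Fin 3) (Fin 3) ℤ) i j : ℤ) : ℝ) := by
      by_cases hij : i = j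
      · subst hij; simp
      · simp [Matrix.one_apply_ne hij]
    rw [e] at h1
    simp only [map_apply, Int.coe_castRingHom] at h1
    have h2 : |N i j - (1 : Matrix (Fin 3) (Fin 3) ℤ) i j| < 1 := by
      exact_mod_cast h1
    have := Int.abs_lt_one_iff.mp h2
    linarith
  ext1
  rw [hN, hN1]
  simp

/-! ### ping-pong -/

/-- the three pairwise disjoint half-planes -/
def f : Fin 3 → (Fin 3 → ℝ) → ℝ
  | 0 => fun x => x 1 + x 2
  | 1 => fun x => x 0 - x 2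
  | 2 => fun x => x 2 - x 1

lemma f_A (i : Fin 3) (x : Fin 3 → ℝ) : f i (A i *ᵥ x) = - f i x := by
  fin_cases i
  · simp only [Fin.zero_eta]
    rw [A0_mulVec]
    simp [f]; ring
  · simp only [Fin.mk_one]
    rw [A1_mulVec]
    simp [f]
  · simp only [Fin.reduceFinMk]
    rw [A2_mulVec]
    simp [f]; ring

lemma f_disj {i j : Fin 3} (hij : i ≠ j) {x : Fin 3 → ℝ} (hx : x ∈ K) (h : f i x < 0) :
    0 < f j x := by
  have hx0 := K_pos0 hx
  obtain ⟨hx2, hx1⟩ := hx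
  fin_cases i <;> fin_cases j <;> simp [f] at hij h ⊢ <;> nlinarith

/-- the base point -/
def x0 : Fin 3 → ℝ := ![2, 0, 1]

lemma x0_mem : x0 ∈ K := by
  refine ⟨?_, ?_⟩ <;> simp [x0]

lemma f_x0 (i : Fin 3) : 0 < f i x0 := by
  fin_cases i <;> simp [f, x0]

lemma word_pingpong (l : List (Fin 3)) (i : Fin 3) (h : (i :: l).IsChain (· ≠ ·)) :
    f i ((rho (cs3.wordProd (i :: l))).val *ᵥ x0) < 0 := by
  induction l generalizing i with
  | nil =>
    rw [cs3.wordProd_cons, cs3.wordProd_nil, mul_one, rho_simple_val, f_A]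
    linarith [f_x0 i]
  | cons j l ih =>
    rw [cs3.wordProd_cons, rho_mul_mulVec, rho_simple_val, f_A]
    have hch : (j :: l).IsChain (· ≠ ·) := by
      exact (List.isChain_cons_cons.mp h).2
    have hij : i ≠ j := (List.isChain_cons_cons.mp h).1
    have := ih j hch
    have := f_disj hij.symm (rho_mem_K _ x0 x0_mem) this
    linarith

lemma reduced_chain (l : List (Fin 3)) (h : cs3.IsReduced l) : l.IsChain (· ≠ ·) := by
  induction l with
  | nil => simp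
  | cons i l ih =>
    have hl : cs3.IsReduced l := by
      have := h.drop 1
      simpa using this
    cases l with
    | nil => simp
    | cons j l =>
      rw [List.isChain_cons_cons]
      refine ⟨?_, ih hl⟩
      rintro rfl
      unfold CoxeterSystem.IsReduced at h
      rw [cs3.wordProd_cons, cs3.wordProd_cons, cs3.simple_mul_simple_cancel_left] at h
      have := cs3.length_wordProd_le l
      simp only [List.length_cons] at h
      omega

lemma rho_injective : Function.Injective rho := by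
  rw [injective_iff_map_eq_one]
  intro w hw
  obtain ⟨l, hl, rfl⟩ := cs3.exists_isReduced w
  cases l with
  | nil => simp
  | cons i l =>
    exfalso
    have h1 := word_pingpong l i (reduced_chain _ hl)
    rw [hw] at h1
    simp only [Units.val_one, one_mulVec] at h1
    linarith [f_x0 i]

lemma not_reflection : ¬ ∃ α v : Fin 3 → ℝ, α ⬝ᵥ v = 2 ∧
      (rho (cs3.simple 1)).val = 1 - Matrix.vecMulVec v α := by
  rintro ⟨α, v, h1, h2⟩
  rw [rho_simple_val] at h2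
  have h3 := congrArg Matrix.trace h2
  rw [Matrix.trace_sub, Matrix.trace_vecMulVec, dotProduct_comm, h1] at h3
  simp [A, AZ, Matrix.trace_fin_three] at h3
  norm_num at h3

/-! ### reduction theory -/

lemma third_row (w : W3) : ∃ p q : ℤ, (p ≠ 0 ∨ q ≠ 0) ∧ ∀ x : Fin 3 → ℝ,
    ((rho w).val *ᵥ x) 2 = (p : ℝ) ^ 2 * x 0 + 2 * p * q * x 1 + (q : ℝ) ^ 2 * x 2 := by
  induction w using cs3.simple_induction_right with
  | one =>
    refine ⟨0, 1, Or.inr one_ne_zero, ?_⟩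
    intro x
    simp
  | mul_simple_right w i ih =>
    obtain ⟨p, q, hpq, h⟩ := ih
    fin_cases i
    · refine ⟨p - q, 2 * p - q, ?_, ?_⟩
      · omega
      · intro x
        rw [rho_mul_mulVec, h, rho_simple_val]
        simp only [Fin.zero_eta]
        rw [A0_mulVec]
        push_cast
        ring
    · refine ⟨q, - p, ?_, ?_⟩
      · omega
      · intro x
        rw [rho_mul_mulVec, h, rho_simple_val]
        simp only [Fin.mk_one]
        rw [A1_mulVec]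
        push_cast
        ring
    · refine ⟨p + q, - (2 * p + q), ?_, ?_⟩
      · omega
      · intro x
        rw [rho_mul_mulVec, h, rho_simple_val]
        simp only [Fin.reduceFinMk]
        rw [A2_mulVec]
        push_cast
        ring

lemma int_form_lower {x : Fin 3 → ℝ} (hx : x ∈ K) (p q : ℤ) (hpq : p ≠ 0 ∨ q ≠ 0) :
    min (x 0) ((x 0 * x 2 - x 1 ^ 2) / x 0) ≤
      (p : ℝ) ^ 2 * x 0 + 2 * p * q * x 1 + (q : ℝ) ^ 2 * x 2 := by
  have hx0 := K_pos0 hx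
  obtain ⟨hx2, hx1⟩ := hx
  by_cases hq : q = 0
  · subst hq
    have hp : p ≠ 0 := by simpa using hpq
    have h1 : (1 : ℝ) ≤ (p : ℝ) ^ 2 := by
      have : (1 : ℤ) ≤ p ^ 2 := by
        have := Int.one_le_abs hp
        nlinarith [sq_abs p]
      exact_mod_cast this
    refine (min_le_left _ _).trans ?_
    push_cast
    nlinarith
  · have h1 : (1 : ℝ) ≤ (q : ℝ) ^ 2 := by
      have : (1 : ℤ) ≤ q ^ 2 := by
        have := Int.one_le_abs hq
        nlinarith [sq_abs q]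
      exact_mod_cast this
    refine (min_le_right _ _).trans ?_
    rw [div_le_iff₀ hx0]
    have h2 : 0 < x 0 * x 2 - x 1 ^ 2 := by linarith
    nlinarith [sq_nonneg (x 0 * p + x 1 * q)]

/-- the translation by three -/
def tau : W3 := cs3.simple 2 * cs3.simple 1 * cs3.simple 0

lemma rho_tau (x : Fin 3 → ℝ) : (rho tau).val *ᵥ x =
    ![x 0 + 6 * x 1 + 9 * x 2, x 1 + 3 * x 2, x 2] := by
  unfold tau
  rw [rho_mul_mulVec, rho_mul_mulVec, rho_simple_val, rho_simple_val, rho_simple_val,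
    A2_mulVec, A1_mulVec, A0_mulVec]
  ext i
  fin_cases i <;> simp only [Fin.zero_eta, Fin.mk_one, Fin.reduceFinMk, cons_val] <;> ring

lemma rho_tau_inv (x : Fin 3 → ℝ) : (rho tau⁻¹).val *ᵥ x =
    ![x 0 - 6 * x 1 + 9 * x 2, x 1 - 3 * x 2, x 2] := by
  have h1 : (rho tau).val *ᵥ ![x 0 - 6 * x 1 + 9 * x 2, x 1 - 3 * x 2, x 2] = x := by
    rw [rho_tau]
    ext i
    fin_cases i <;> simp only [Fin.zero_eta, Fin.mk_one, Fin.reduceFinMk, cons_val] <;> ring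
  conv_lhs => rw [← h1]
  rw [← rho_mul_mulVec, inv_mul_cancel, map_one]
  simp

lemma rho_tau_zpow (n : ℤ) (x : Fin 3 → ℝ) : (rho (tau ^ n)).val *ᵥ x =
    ![x 0 + 6 * n * x 1 + 9 * n ^ 2 * x 2, x 1 + 3 * n * x 2, x 2] := by
  induction n using Int.induction_on with
  | zero =>
    simp only [zpow_zero, map_one, Units.val_one, one_mulVec, Int.cast_zero]
    ext i
    fin_cases i <;> simp
  | succ n ih =>
    rw [add_comm, _root_.zpow_add, _root_.zpow_one, rho_mul_mulVec, ih, rho_tau]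
    ext i
    fin_cases i <;> simp only [Fin.zero_eta, Fin.mk_one, Fin.reduceFinMk, cons_val] <;>
      push_cast <;> ring
  | pred n ih =>
    rw [sub_eq_neg_add, _root_.zpow_add, _root_.zpow_neg_one, rho_mul_mulVec, ih, rho_tau_inv]
    ext i
    fin_cases i <;> simp only [Fin.zero_eta, Fin.mk_one, Fin.reduceFinMk, cons_val] <;>
      push_cast <;> ring

/-- the Siegel-type domain -/
def FD : Set (Fin 3 → ℝ) :=
  {x | x ∈ K ∧ |x 1| ≤ (3 / 2) * x 2 ∧ (x 2) ^ 2 / 2 ≤ x 0 * x 2 - (x 1) ^ 2}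

lemma FD_sub : FD ⊆ K := fun _ h => h.1

lemma reduction {x : Fin 3 → ℝ} (hx : x ∈ K) : ∃ w : W3, (rho w).val *ᵥ x ∈ FD := by
  classical
  have hx0 := K_pos0 hx
  set δ : ℝ := min (x 0) ((x 0 * x 2 - x 1 ^ 2) / x 0) with hδ
  have hδpos : 0 < δ := by
    refine lt_min hx0 (div_pos ?_ hx0)
    have := hx.2
    linarith
  have hlow : ∀ w : W3, δ ≤ ((rho w).val *ᵥ x) 2 := by
    intro w
    obtain ⟨p, q, hpq, h⟩ := third_row w
    rw [h]
    exact int_form_lower hx p q hpq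
  have hbdd : BddBelow (Set.range fun w : W3 => ((rho w).val *ᵥ x) 2) :=
    ⟨δ, by rintro _ ⟨w, rfl⟩; exact hlow w⟩
  set m : ℝ := ⨅ w : W3, ((rho w).val *ᵥ x) 2 with hm
  have hmδ : δ ≤ m := le_ciInf hlow
  have hmpos : 0 < m := lt_of_lt_of_le hδpos hmδ
  obtain ⟨w, hw⟩ : ∃ w : W3, ((rho w).val *ᵥ x) 2 < (4 / 3) * m := by
    apply exists_lt_of_ciInf_lt
    rw [← hm]
    linarith
  set y := (rho w).val *ᵥ x with hy
  have hyK : y ∈ K := rho_mem_K w x hx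
  set n : ℤ := - round (y 1 / (3 * y 2)) with hn
  have hy2 : 0 < y 2 := hyK.1
  have hround : |y 1 + 3 * n * y 2| ≤ (3 / 2) * y 2 := by
    have h1 := abs_sub_round (y 1 / (3 * y 2))
    have h2 : y 1 + 3 * n * y 2 = (y 1 / (3 * y 2) - round (y 1 / (3 * y 2))) * (3 * y 2) := by
      rw [hn]; push_cast; field_simp; ring
    rw [h2, abs_mul, abs_of_pos (show 0 < 3 * y 2 by positivity)]
    nlinarith
  set z := (rho (tau ^ n * w)).val *ᵥ x with hz
  have hzy : z = ![y 0 + 6 * n * y 1 + 9 * n ^ 2 * y 2, y 1 + 3 * n * y 2, y 2] := by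
    rw [hz, rho_mul_mulVec, rho_tau_zpow]
  have hzK : z ∈ K := rho_mem_K _ x hx
  have hz1 : z 1 = y 1 + 3 * n * y 2 := by rw [hzy]; rfl
  have hz2 : z 2 = y 2 := by rw [hzy]; rfl
  have hz0 := K_pos0 hzK
  -- minimality
  have hmin : ∀ i : Fin 3, (3 / 4) * z 2 < (A i *ᵥ z) 2 := by
    intro i
    have h1 : m ≤ ((rho (cs3.simple i * (tau ^ n * w))).val *ᵥ x) 2 := ciInf_le hbdd _
    rw [rho_mul_mulVec, rho_simple_val, ← hz] at h1
    rw [hz2]
    linarith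
  have h0 := hmin 0
  have h1 := hmin 1
  have h2 := hmin 2
  rw [A0_mulVec] at h0
  rw [A1_mulVec] at h1
  rw [A2_mulVec] at h2
  simp only [Fin.isValue, cons_val] at h0 h1 h2
  have hzz2 : 0 < z 2 := hzK.1
  refine ⟨tau ^ n * w, hzK, ?_, ?_⟩
  · rw [← hz, hz1, hz2]; exact hround
  · rw [← hz]
    have habs : |z 1| ≤ (3 / 2) * z 2 := by rw [hz1, hz2]; exact hround
    rw [abs_le] at habs
    obtain ⟨ha, hb⟩ := habs
    have h0' := mul_lt_mul_of_pos_right h0 hzz2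
    have h1' := mul_lt_mul_of_pos_right h1 hzz2
    have h2' := mul_lt_mul_of_pos_right h2 hzz2
    rcases le_total (z 1) (-(z 2) / 2) with hc | hc
    · -- near -1
      nlinarith
    · rcases le_total (z 1) ((z 2) / 2) with hd | hd
      · nlinarith
      · nlinarith

/-! ### the Hilbert metric -/

/-- the Hilbert distance of the cone, in the form used by the frozen statement -/
noncomputable def dH (x y : Fin 3 → ℝ) : ℝ :=
  (1/2) * Real.log (sInf {t : ℝ | t • y - x ∈ closure K} * sInf {t : ℝ | t • x - y ∈ closure K})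

lemma set_lower {x y : Fin 3 → ℝ} (hy : y ∈ K) {t : ℝ}
    (ht : t • y - x ∈ closure K) : x 2 / y 2 ≤ t := by
  have h := (K_closure_sub ht).2.1
  simp only [Pi.sub_apply, Pi.smul_apply, smul_eq_mul] at h
  rw [div_le_iff₀ hy.1]
  linarith

lemma sInf_bounds {x y : Fin 3 → ℝ} (hx : x ∈ K) (hy : y ∈ K) {t : ℝ}
    (ht : t • y - x ∈ K) : 0 < sInf {t : ℝ | t • y - x ∈ closure K} ∧
      sInf {t : ℝ | t • y - x ∈ closure K} ≤ t := by
  have hmem : t ∈ {t : ℝ | t • y - x ∈ closure K} := subset_closure ht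
  constructor
  · refine lt_of_lt_of_le (div_pos hx.1 hy.1) ?_
    apply le_csInf ⟨t, hmem⟩
    intro s hs
    exact set_lower hy hs
  · apply csInf_le _ hmem
    exact ⟨x 2 / y 2, fun s hs => set_lower hy hs⟩

lemma quad_ineq {ξ₁ ξ₂ η₁ η₂ m s : ℝ} (hm : 0 < m) (hs : 0 < s) (hsm : s ≤ m)
    (hξ : |ξ₁ - ξ₂| ≤ s) (hη : |η₁ - η₂| ≤ s) (_h1 : m ≤ η₁) (h2 : m ≤ η₂) :
    ((1 + 2 * s / m) ^ 2) * (ξ₁ - ξ₂) ^ 2 <
      ((1 + 2 * s / m) ^ 2 - 1) * ((1 + 2 * s / m) ^ 2 * η₂ ^ 2 - η₁ ^ 2) := by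
  set u : ℝ := 2 * s / m with hu
  have hu0 : 0 < u := by positivity
  have hu2 : u ≤ 2 := by
    rw [hu, div_le_iff₀ hm]; linarith
  have hum : u * m = 2 * s := by rw [hu]; field_simp
  have hη' := abs_le.mp hη
  have hη2 : 0 < η₂ := lt_of_lt_of_le hm h2
  have hη1 : 0 < η₁ := lt_of_lt_of_le hm _h1
  have hξ2 : (ξ₁ - ξ₂) ^ 2 ≤ s ^ 2 := by
    rw [← sq_abs]
    exact pow_le_pow_left₀ (abs_nonneg _) hξ 2
  -- `u η₂ ≥ 2 s`
  have h3 : 2 * s ≤ u * η₂ := by rw [← hum]; exact mul_le_mul_of_nonneg_left h2 hu0.le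
  have h4 : u * η₂ / 2 ≤ (1 + u) * η₂ - η₁ := by linarith
  have h5 : (1 + u) * η₂ ≤ (1 + u) * η₂ + η₁ := by linarith
  have h6 : (u * η₂ / 2) * ((1 + u) * η₂) ≤ (1 + u) ^ 2 * η₂ ^ 2 - η₁ ^ 2 := by
    have : (1 + u) ^ 2 * η₂ ^ 2 - η₁ ^ 2 = ((1 + u) * η₂ - η₁) * ((1 + u) * η₂ + η₁) := by ring
    rw [this]
    apply mul_le_mul h4 h5 (by positivity)
    have : 0 ≤ u * η₂ / 2 := by positivity
    linarith
  have h7 : 2 * u ≤ (1 + u) ^ 2 - 1 := by nlinarith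
  have h8 : (2 * u) * ((u * η₂ / 2) * ((1 + u) * η₂)) ≤
      ((1 + u) ^ 2 - 1) * ((1 + u) ^ 2 * η₂ ^ 2 - η₁ ^ 2) := by
    apply mul_le_mul h7 h6 (by positivity)
    have : 0 ≤ 2 * u := by positivity
    linarith
  have h9 : (1 + u) * (4 * s ^ 2) ≤ (2 * u) * ((u * η₂ / 2) * ((1 + u) * η₂)) := by
    have e : (2 * u) * ((u * η₂ / 2) * ((1 + u) * η₂)) = (1 + u) * (u * η₂) ^ 2 := by ring
    rw [e]
    apply mul_le_mul_of_nonneg_left _ (by positivity)
    nlinarith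
  have h10 : (1 + u) ^ 2 * (ξ₁ - ξ₂) ^ 2 ≤ (1 + u) ^ 2 * s ^ 2 :=
    mul_le_mul_of_nonneg_left hξ2 (by positivity)
  have h11 : (1 + u) ^ 2 * s ^ 2 < (1 + u) * (4 * s ^ 2) := by
    have : 0 < (1 + u) * s ^ 2 * (4 - (1 + u)) := by
      have : 0 < 4 - (1 + u) := by linarith
      positivity
    nlinarith
  linarith

/-- the boxes -/
def box (ξ m s : ℝ) : Set (Fin 3 → ℝ) :=
  {x | x ∈ K ∧ ξ ≤ x 1 / x 2 ∧ x 1 / x 2 ≤ ξ + s ∧
    m ≤ Real.sqrt (x 0 * x 2 - (x 1) ^ 2) / x 2 ∧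
    Real.sqrt (x 0 * x 2 - (x 1) ^ 2) / x 2 ≤ m + s}

lemma box_sub (ξ m s : ℝ) : box ξ m s ⊆ K := fun _ h => h.1

lemma box_mem_K {ξ m s : ℝ} (hm : 0 < m) (hs : 0 < s) (hsm : s ≤ m) {x y : Fin 3 → ℝ}
    (hx : x ∈ box ξ m s) (hy : y ∈ box ξ m s) :
    ((x 2 / y 2) * (1 + 2 * s / m) ^ 2) • y - x ∈ K := by
  obtain ⟨hxK, hx1, hx2, hx3, hx4⟩ := hx
  obtain ⟨hyK, hy1, hy2, hy3, hy4⟩ := hy
  have hx2p := hxK.1
  have hy2p := hyK.1
  set ξ₁ := x 1 / x 2 with hξ₁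
  set ξ₂ := y 1 / y 2 with hξ₂
  set η₁ := Real.sqrt (x 0 * x 2 - (x 1) ^ 2) / x 2 with hη₁
  set η₂ := Real.sqrt (y 0 * y 2 - (y 1) ^ 2) / y 2 with hη₂
  have ex1 : x 1 = ξ₁ * x 2 := by rw [hξ₁]; field_simp
  have ey1 : y 1 = ξ₂ * y 2 := by rw [hξ₂]; field_simp
  have ex0 : x 0 = (ξ₁ ^ 2 + η₁ ^ 2) * x 2 := by
    have h1 : η₁ ^ 2 = (x 0 * x 2 - x 1 ^ 2) / (x 2) ^ 2 := by
      rw [hη₁, div_pow, Real.sq_sqrt]
      have := hxK.2
      linarith
    rw [h1, hξ₁]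
    field_simp
    ring
  have ey0 : y 0 = (ξ₂ ^ 2 + η₂ ^ 2) * y 2 := by
    have h1 : η₂ ^ 2 = (y 0 * y 2 - y 1 ^ 2) / (y 2) ^ 2 := by
      rw [hη₂, div_pow, Real.sq_sqrt]
      have := hyK.2
      linarith
    rw [h1, hξ₂]
    field_simp
    ring
  have hξ : |ξ₁ - ξ₂| ≤ s := by rw [abs_le]; constructor <;> linarith
  have hη : |η₁ - η₂| ≤ s := by rw [abs_le]; constructor <;> linarith
  have hq := quad_ineq hm hs hsm hξ hη hx3 hy3
  set u : ℝ := 2 * s / m with hu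
  have hu0 : 0 < u := by positivity
  refine ⟨?_, ?_⟩
  · simp only [Pi.sub_apply, Pi.smul_apply, smul_eq_mul]
    have : x 2 / y 2 * (1 + u) ^ 2 * y 2 - x 2 = x 2 * ((1 + u) ^ 2 - 1) := by
      field_simp
    rw [this]
    have : 0 < (1 + u) ^ 2 - 1 := by nlinarith
    positivity
  · simp only [Pi.sub_apply, Pi.smul_apply, smul_eq_mul]
    have e2 : x 2 / y 2 * (1 + u) ^ 2 * y 2 - x 2 = x 2 * ((1 + u) ^ 2 - 1) := by
      field_simp
    have e1 : x 2 / y 2 * (1 + u) ^ 2 * y 1 - x 1 = x 2 * ((1 + u) ^ 2 * ξ₂ - ξ₁) := by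
      rw [ex1, ey1]; field_simp
    have e0 : x 2 / y 2 * (1 + u) ^ 2 * y 0 - x 0 =
        x 2 * ((1 + u) ^ 2 * (ξ₂ ^ 2 + η₂ ^ 2) - (ξ₁ ^ 2 + η₁ ^ 2)) := by
      rw [ex0, ey0]; field_simp
    rw [e0, e1, e2]
    have : 0 < (x 2) ^ 2 * (((1 + u) ^ 2 - 1) * ((1 + u) ^ 2 * η₂ ^ 2 - η₁ ^ 2) -
        ((1 + u) ^ 2) * (ξ₁ - ξ₂) ^ 2) := by
      have : 0 < ((1 + u) ^ 2 - 1) * ((1 + u) ^ 2 * η₂ ^ 2 - η₁ ^ 2) -
        ((1 + u) ^ 2) * (ξ₁ - ξ₂) ^ 2 := by linarith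
      positivity
    have e3 : x 2 * ((1 + u) ^ 2 * (ξ₂ ^ 2 + η₂ ^ 2) - (ξ₁ ^ 2 + η₁ ^ 2)) *
        (x 2 * ((1 + u) ^ 2 - 1)) - (x 2 * ((1 + u) ^ 2 * ξ₂ - ξ₁)) ^ 2 =
        (x 2) ^ 2 * (((1 + u) ^ 2 - 1) * ((1 + u) ^ 2 * η₂ ^ 2 - η₁ ^ 2) -
        ((1 + u) ^ 2) * (ξ₁ - ξ₂) ^ 2) := by ring
    linarith

lemma dH_box {ξ m s : ℝ} (hm : 0 < m) (hs : 0 < s) (hsm : s ≤ m) {x y : Fin 3 → ℝ}
    (hx : x ∈ box ξ m s) (hy : y ∈ box ξ m s) : dH x y ≤ 4 * s / m := by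
  have h1 := sInf_bounds (box_sub _ _ _ hx) (box_sub _ _ _ hy) (box_mem_K hm hs hsm hx hy)
  have h2 := sInf_bounds (box_sub _ _ _ hy) (box_sub _ _ _ hx) (box_mem_K hm hs hsm hy hx)
  have hx2p := (box_sub _ _ _ hx).1
  have hy2p := (box_sub _ _ _ hy).1
  unfold dH
  set P := sInf {t : ℝ | t • y - x ∈ closure K}
  set Q := sInf {t : ℝ | t • x - y ∈ closure K}
  set u : ℝ := 2 * s / m with hu
  have hu0 : 0 < u := by positivity
  have h3 : P * Q ≤ (1 + u) ^ 4 := by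
    have h4 : P * Q ≤ (x 2 / y 2 * (1 + u) ^ 2) * (y 2 / x 2 * (1 + u) ^ 2) :=
      mul_le_mul h1.2 h2.2 h2.1.le (by positivity)
    have h5 : (x 2 / y 2 * (1 + u) ^ 2) * (y 2 / x 2 * (1 + u) ^ 2) = (1 + u) ^ 4 := by
      field_simp
    rwa [h5] at h4
  have h6 : Real.log (P * Q) ≤ Real.log ((1 + u) ^ 4) :=
    Real.log_le_log (mul_pos h1.1 h2.1) h3
  rw [Real.log_pow] at h6
  have h7 : Real.log (1 + u) ≤ u := by
    have := Real.log_le_sub_one_of_pos (show 0 < 1 + u by positivity)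
    linarith
  have h8 : 4 * s / m = 2 * u := by rw [hu]; ring
  rw [h8]
  push_cast at h6
  linarith

/-! ### the two-dimensional Hausdorff measure of the Siegel-type domain is finite -/

/-- the diameter for the Hilbert metric -/
noncomputable def diamH (U : Set (Fin 3 → ℝ)) : ENNReal :=
  ⨆ x ∈ U, ⨆ y ∈ U, ENNReal.ofReal (dH x y)

/-- the two-dimensional Hausdorff measure of the Hilbert metric -/
noncomputable def HH (F : Set (Fin 3 → ℝ)) : ENNReal :=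
  ⨆ (r : ℝ) (_ : 0 < r), ⨅ (U : ℕ → Set (Fin 3 → ℝ))
        (_ : F ⊆ ⋃ i, U i) (_ : ∀ i, U i ⊆ K ∧ diamH (U i) ≤ ENNReal.ofReal r),
        ∑' i, diamH (U i) ^ 2

lemma diamH_box {ξ m s : ℝ} (hm : 0 < m) (hs : 0 < s) (hsm : s ≤ m) :
    diamH (box ξ m s) ≤ ENNReal.ofReal (4 * s / m) := by
  unfold diamH
  refine iSup₂_le fun x hx => iSup₂_le fun y hy => ?_
  exact ENNReal.ofReal_le_ofReal (dH_box hm hs hsm hx hy)

lemma diamH_empty : diamH ∅ = 0 := by
  simp [diamH]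

lemma real_sum_bound (N : ℕ) (hN : 2 ≤ N) (n : ℕ) :
    ∑ j ∈ Finset.range n, (8 / ((N : ℝ) + 2 * j)) ^ 2 ≤ 32 / ((N : ℝ) - 1) -
      32 / ((N : ℝ) - 1 + 2 * n) := by
  have hN' : (2 : ℝ) ≤ N := by exact_mod_cast hN
  induction n with
  | zero => simp
  | succ n ih =>
    rw [Finset.sum_range_succ]
    have hn : (0 : ℝ) ≤ n := Nat.cast_nonneg n
    have h1 : (8 / ((N : ℝ) + 2 * n)) ^ 2 ≤ 32 / ((N : ℝ) - 1 + 2 * n) -
        32 / ((N : ℝ) - 1 + 2 * (n + 1 : ℕ)) := by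
      push_cast
      have ha : 0 < (N : ℝ) - 1 + 2 * n := by linarith
      have hb : 0 < (N : ℝ) - 1 + 2 * (n + 1) := by linarith
      have hc : 0 < (N : ℝ) + 2 * n := by linarith
      rw [div_sub_div _ _ ha.ne' hb.ne', div_pow, div_le_div_iff₀ (by positivity) (by positivity)]
      nlinarith
    linarith

lemma ennreal_sum_bound (N : ℕ) (hN : 2 ≤ N) :
    ∑' j : ℕ, (ENNReal.ofReal (8 / ((N : ℝ) + 2 * j))) ^ 2 ≤ ENNReal.ofReal (64 / N) := by
  have hN' : (2 : ℝ) ≤ N := by exact_mod_cast hN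
  apply ENNReal.tsum_le_of_sum_range_le
  intro n
  have h1 : ∀ j ∈ Finset.range n, (ENNReal.ofReal (8 / ((N : ℝ) + 2 * j))) ^ 2 =
      ENNReal.ofReal ((8 / ((N : ℝ) + 2 * j)) ^ 2) := by
    intro j _
    rw [ENNReal.ofReal_pow (by positivity)]
  rw [Finset.sum_congr rfl h1, ← ENNReal.ofReal_sum_of_nonneg (fun j _ => by positivity)]
  apply ENNReal.ofReal_le_ofReal
  have h2 := real_sum_bound N hN n
  have hn : (0 : ℝ) ≤ n := Nat.cast_nonneg n
  have h3 : 0 ≤ 32 / ((N : ℝ) - 1 + 2 * n) := by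
    apply div_nonneg (by norm_num); linarith
  have h4 : 32 / ((N : ℝ) - 1) ≤ 64 / N := by
    rw [div_le_div_iff₀ (by linarith) (by linarith)]
    linarith
  linarith

/-- the cover by small boxes -/
noncomputable def cov (N : ℕ) (p : ℕ × ℕ) : Set (Fin 3 → ℝ) :=
  if p.1 < 4 * N then box (-2 + (p.1 : ℝ) / N) (1 / 2 + (p.2 : ℝ) / N) (1 / N) else ∅

lemma cov_diam (N : ℕ) (hN : 2 ≤ N) (p : ℕ × ℕ) :
    diamH (cov N p) ≤ if p.1 < 4 * N then ENNReal.ofReal (8 / ((N : ℝ) + 2 * p.2)) else 0 := by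
  have hN' : (2 : ℝ) ≤ N := by exact_mod_cast hN
  unfold cov
  split_ifs with h
  · have hp : (0 : ℝ) ≤ p.2 := Nat.cast_nonneg _
    have h1 : (1 : ℝ) / N ≤ 1 / 2 := by
      rw [div_le_div_iff₀ (by linarith) (by norm_num)]; linarith
    have h2 : (0 : ℝ) ≤ (p.2 : ℝ) / N := by positivity
    refine (diamH_box (by positivity) (by positivity) (by linarith)).trans (le_of_eq ?_)
    congr 1
    field_simp
    ring
  · rw [diamH_empty]

lemma cov_sub (N : ℕ) (p : ℕ × ℕ) : cov N p ⊆ K := by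
  unfold cov
  split_ifs
  · exact box_sub _ _ _
  · exact Set.empty_subset _

lemma cov_covers (N : ℕ) (hN : 2 ≤ N) {x : Fin 3 → ℝ} (hx : x ∈ FD) : ∃ p, x ∈ cov N p := by
  have hN' : (2 : ℝ) ≤ N := by exact_mod_cast hN
  have hNp : (0 : ℝ) < N := by linarith
  obtain ⟨hK, h1, h2⟩ := hx
  have hx2 := hK.1
  rw [abs_le] at h1
  set ξ := x 1 / x 2 with hξ
  set η := Real.sqrt (x 0 * x 2 - (x 1) ^ 2) / x 2 with hη
  have hξ1 : -(3 / 2) ≤ ξ := by rw [hξ, le_div_iff₀ hx2]; linarith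
  have hξ2 : ξ ≤ 3 / 2 := by rw [hξ, div_le_iff₀ hx2]; linarith
  have hη1 : 1 / 2 ≤ η := by
    rw [hη, le_div_iff₀ hx2]
    apply Real.le_sqrt_of_sq_le
    nlinarith
  have ha : 0 ≤ (ξ + 2) * N := by
    apply mul_nonneg _ hNp.le; linarith
  have hb : 0 ≤ (η - 1 / 2) * N := by
    apply mul_nonneg _ hNp.le; linarith
  refine ⟨(⌊(ξ + 2) * N⌋₊, ⌊(η - 1 / 2) * N⌋₊), ?_⟩
  have hi1 := Nat.floor_le ha
  have hi2 := Nat.lt_floor_add_one ((ξ + 2) * N)
  have hj1 := Nat.floor_le hb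
  have hj2 := Nat.lt_floor_add_one ((η - 1 / 2) * N)
  have hlt : ⌊(ξ + 2) * N⌋₊ < 4 * N := by
    rw [Nat.floor_lt ha]
    push_cast
    nlinarith
  unfold cov
  rw [if_pos hlt]
  refine ⟨hK, ?_, ?_, ?_, ?_⟩
  · rw [← hξ, neg_add_le_iff_le_add, div_le_iff₀ hNp]
    linarith
  · rw [← hξ]
    have : ξ + 2 ≤ ((⌊(ξ + 2) * N⌋₊ : ℝ) + 1) / N := by
      rw [le_div_iff₀ hNp]; exact hi2.le
    rw [add_div] at this
    linarith
  · rw [← hη]
    have : (⌊(η - 1 / 2) * N⌋₊ : ℝ) / N ≤ η - 1 / 2 := by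
      rw [div_le_iff₀ hNp]; exact hj1
    linarith
  · rw [← hη]
    have : η - 1 / 2 ≤ ((⌊(η - 1 / 2) * N⌋₊ : ℝ) + 1) / N := by
      rw [le_div_iff₀ hNp]; exact hj2.le
    rw [add_div] at this
    linarith

lemma cov_sum (N : ℕ) (hN : 2 ≤ N) :
    ∑' n : ℕ, diamH (cov N (Nat.unpair n)) ^ 2 ≤ 256 := by
  have hN' : (2 : ℝ) ≤ N := by exact_mod_cast hN
  have hNp : (0 : ℝ) < N := by linarith
  have e1 : ∑' n : ℕ, diamH (cov N (Nat.unpair n)) ^ 2 = ∑' p : ℕ × ℕ, diamH (cov N p) ^ 2 :=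
    Nat.pairEquiv.symm.tsum_eq (fun p => diamH (cov N p) ^ 2)
  rw [e1, ENNReal.tsum_prod (f := fun i j => diamH (cov N (i, j)) ^ 2)]
  have e2 : ∀ i : ℕ, ∑' j : ℕ, diamH (cov N (i, j)) ^ 2 ≤
      if i < 4 * N then ENNReal.ofReal (64 / N) else 0 := by
    intro i
    split_ifs with h
    · refine le_trans (ENNReal.tsum_le_tsum fun j => ?_) (ennreal_sum_bound N hN)
      have := cov_diam N hN (i, j)
      simp only [h, if_true] at this
      exact pow_le_pow_left' this 2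
    · have : ∀ j : ℕ, diamH (cov N (i, j)) ^ 2 = 0 := by
        intro j
        have h1 : cov N (i, j) = ∅ := by simp [cov, h]
        rw [h1, diamH_empty]; simp
      simp [this]
  refine (ENNReal.tsum_le_tsum e2).trans ?_
  rw [tsum_eq_sum (s := Finset.range (4 * N))]
  · rw [Finset.sum_congr rfl (g := fun _ => ENNReal.ofReal (64 / N))]
    · rw [Finset.sum_const, Finset.card_range, nsmul_eq_mul]
      have e3 : ((4 * N : ℕ) : ENNReal) = ENNReal.ofReal ((4 * N : ℕ) : ℝ) := by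
        rw [ENNReal.ofReal_natCast]
      rw [e3, ← ENNReal.ofReal_mul (by positivity)]
      have e4 : (((4 * N : ℕ) : ℝ) * (64 / N)) = 256 := by
        push_cast; field_simp; norm_num
      rw [e4]
      norm_num
    · intro i hi
      rw [if_pos (Finset.mem_range.mp hi)]
  · intro i hi
    rw [if_neg]
    simpa using hi

lemma HH_FD : HH FD ≤ 256 := by
  unfold HH
  refine iSup₂_le fun r hr => ?_
  obtain ⟨N, hN⟩ := exists_nat_ge (max 2 (8 / r))
  have hN2 : 2 ≤ N := by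
    have := (le_max_left _ _).trans hN
    exact_mod_cast this
  have hNr : 8 / r ≤ N := (le_max_right _ _).trans hN
  have hNp : (0 : ℝ) < N := by
    have : (2 : ℝ) ≤ N := by exact_mod_cast hN2
    linarith
  refine iInf_le_of_le (fun n => cov N (Nat.unpair n)) (iInf_le_of_le ?_ (iInf_le_of_le ?_ ?_))
  · intro x hx
    obtain ⟨p, hp⟩ := cov_covers N hN2 hx
    rw [Set.mem_iUnion]
    exact ⟨Nat.pair p.1 p.2, by simpa using hp⟩
  · intro n
    refine ⟨cov_sub _ _, (cov_diam N hN2 _).trans ?_⟩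
    split_ifs
    · apply ENNReal.ofReal_le_ofReal
      have hp : (0 : ℝ) ≤ (Nat.unpair n).2 := Nat.cast_nonneg _
      rw [div_le_iff₀ (by positivity)]
      rw [div_le_iff₀ hr] at hNr
      nlinarith
    · exact bot_le
  · exact cov_sum N hN2

end Pool.Agent.H68.Cox
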