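import Mathlib

/-!
Basic facts on Birkhoff-James orthogonality in real normed spaces.
-/

namespace Pool.Agent.H68.PK

open Module Set Filter Topology

variable {X : Type*} [NormedAddCommGroup X] [NormedSpace ℝ X]

/-- Birkhoff-James orthogonality. -/
def BJ (x y : X) : Prop := ∀ t : ℝ, ‖x‖ ≤ ‖x + t • y‖

/-- The linear map `T` preserves Birkhoff-James orthogonality at `x`. -/
def PresAt (T : X →ₗ[ℝ] X) (x : X) : Prop := ∀ y, BJ x y → BJ (T x) (T y)

theorem BJ.smul {x y : X} (h : BJ x y) (a b : ℝ) : BJ (a • x) (b • y) := by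
  intro t
  by_cases ha : a = 0
  · subst ha
    simp
  · have h1 := h (a⁻¹ * (t * b))
    have h2 : a • x + t • b • y = a • (x + (a⁻¹ * (t * b)) • y) := by
      rw [smul_add, smul_smul, smul_smul, mul_inv_cancel_left₀ ha]
    rw [h2, norm_smul, norm_smul]
    exact mul_le_mul_of_nonneg_left h1 (norm_nonneg _)

theorem BJ.of_smul_left {x y : X} {a : ℝ} (ha : a ≠ 0) (h : BJ (a • x) y) : BJ x y := by
  have := h.smul a⁻¹ 1
  rwa [smul_smul, inv_mul_cancel₀ ha, one_smul, one_smul] at this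

theorem BJ.of_smul_right {x y : X} {a : ℝ} (ha : a ≠ 0) (h : BJ x (a • y)) : BJ x y := by
  have := h.smul 1 a⁻¹
  rwa [smul_smul, inv_mul_cancel₀ ha, one_smul, one_smul] at this

theorem not_BJ_of_norm_sub_lt {x y : X} (h : ‖x - y‖ < ‖x‖) : ¬ BJ x y := by
  intro h'
  have := h' (-1)
  rw [neg_one_smul, ← sub_eq_add_neg] at this
  linarith

theorem not_BJ_self {x : X} (hx : x ≠ 0) : ¬ BJ x x :=
  not_BJ_of_norm_sub_lt (by simpa using hx)

theorem BJ_of_functional {x y : X} (g : StrongDual ℝ X) (hg : ‖g‖ ≤ 1) (hgx : g x = ‖x‖)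
    (hgy : g y = 0) : BJ x y := by
  intro t
  have h1 : g (x + t • y) = ‖x‖ := by
    rw [map_add, map_smul, hgy, hgx]
    simp
  calc ‖x‖ = g (x + t • y) := h1.symm
    _ ≤ ‖g (x + t • y)‖ := le_abs_self _
    _ ≤ ‖g‖ * ‖x + t • y‖ := g.le_opNorm _
    _ ≤ 1 * ‖x + t • y‖ := mul_le_mul_of_nonneg_right hg (norm_nonneg _)
    _ = _ := one_mul _

theorem exists_functional_of_BJ {x y : X} (h : BJ x y) :
    ∃ g : StrongDual ℝ X, ‖g‖ ≤ 1 ∧ g x = ‖x‖ ∧ g y = 0 := by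
  classical
  let S : Submodule ℝ X := ℝ ∙ y
  obtain ⟨g, hg, hgx⟩ := exists_dual_vector'' ℝ (Submodule.Quotient.mk x : X ⧸ S)
  have hn : ‖(Submodule.Quotient.mk x : X ⧸ S)‖ = ‖x‖ := by
    apply le_antisymm (Submodule.Quotient.norm_mk_le S x)
    refine le_of_forall_pos_le_add fun ε hε => ?_
    obtain ⟨m, hm, hm'⟩ := Submodule.Quotient.norm_mk_lt (Submodule.Quotient.mk x : X ⧸ S) hε
    have h1 : m - x ∈ S := (Submodule.Quotient.eq S).1 hm
    obtain ⟨t, ht⟩ := Submodule.mem_span_singleton.1 h1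
    have h2 := h t
    rw [ht, add_sub_cancel] at h2
    linarith
  have hb : ∀ z : X, ‖(g.toLinearMap ∘ₗ S.mkQ) z‖ ≤ 1 * ‖z‖ := by
    intro z
    have h1 : ‖g (Submodule.Quotient.mk z)‖ ≤ ‖g‖ * ‖(Submodule.Quotient.mk z : X ⧸ S)‖ :=
      g.le_opNorm _
    have h2 := Submodule.Quotient.norm_mk_le S z
    have h3 : ‖g‖ * ‖(Submodule.Quotient.mk z : X ⧸ S)‖ ≤ 1 * ‖z‖ :=
      mul_le_mul hg h2 (norm_nonneg _) zero_le_one
    exact h1.trans h3
  refine ⟨LinearMap.mkContinuous _ 1 hb, LinearMap.mkContinuous_norm_le _ zero_le_one _, ?_, ?_⟩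
  · change g (Submodule.Quotient.mk x) = ‖x‖
    rw [hgx, hn]
    rfl
  · change g (Submodule.Quotient.mk y) = 0
    have : (Submodule.Quotient.mk y : X ⧸ S) = 0 :=
      (Submodule.Quotient.mk_eq_zero S).2 (Submodule.mem_span_singleton_self y)
    rw [this, map_zero]

theorem isClosed_BJ : IsClosed {p : X × X | BJ p.1 p.2} := by
  have : {p : X × X | BJ p.1 p.2} = ⋂ t : ℝ, {p : X × X | ‖p.1‖ ≤ ‖p.1 + t • p.2‖} := by
    ext p
    simp [BJ]
  rw [this]
  refine isClosed_iInter fun t => isClosed_le (by fun_prop) (by fun_prop)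

theorem isClosed_BJ_left (y : X) : IsClosed {x : X | BJ x y} :=
  isClosed_BJ.preimage (f := fun x : X => (x, y)) (by fun_prop)

theorem isClosed_BJ_right (x : X) : IsClosed {y : X | BJ x y} :=
  isClosed_BJ.preimage (f := fun y : X => (x, y)) (by fun_prop)

theorem BJ.of_tendsto {ι : Type*} {l : Filter ι} [l.NeBot] {x y : ι → X} {a b : X}
    (hx : Tendsto x l (𝓝 a)) (hy : Tendsto y l (𝓝 b)) (h : ∀ i, BJ (x i) (y i)) : BJ a b :=
  isClosed_BJ.mem_of_tendsto (hx.prodMk_nhds hy) (Eventually.of_forall h)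

/-- Points of differentiability of the norm. -/
def Sm (x : X) : Prop := DifferentiableAt ℝ (fun y : X => ‖y‖) x

/-- The derivative of the norm. -/
noncomputable def D (x : X) : StrongDual ℝ X := fderiv ℝ (fun y : X => ‖y‖) x

theorem functional_le {g : StrongDual ℝ X} (hg : ‖g‖ ≤ 1) (y : X) : g y ≤ ‖y‖ :=
  calc g y ≤ ‖g y‖ := le_abs_self _
    _ ≤ ‖g‖ * ‖y‖ := g.le_opNorm _
    _ ≤ 1 * ‖y‖ := mul_le_mul_of_nonneg_right hg (norm_nonneg _)
    _ = _ := one_mul _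

theorem Sm.eq_D {x : X} (hx : Sm x) {g : StrongDual ℝ X} (hg : ‖g‖ ≤ 1) (hgx : g x = ‖x‖) :
    D x = g := by
  have h1 : IsLocalMin (fun y : X => ‖y‖ - g y) x := by
    refine Eventually.of_forall fun y => ?_
    have := functional_le hg y
    simp only [hgx, sub_self]
    linarith
  have h2 : HasFDerivAt (fun y : X => ‖y‖ - g y) (D x - g) x :=
    hx.hasFDerivAt.sub g.hasFDerivAt
  have h3 := h1.hasFDerivAt_eq_zero h2
  exact sub_eq_zero.1 h3

theorem Sm.D_norm {x : X} (hx : Sm x) : ‖D x‖ ≤ 1 ∧ D x x = ‖x‖ := by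
  obtain ⟨g, hg, hgx⟩ := exists_dual_vector'' ℝ x
  have hgx' : g x = ‖x‖ := hgx
  rw [hx.eq_D hg hgx']
  exact ⟨hg, hgx'⟩

theorem Sm.BJ_iff {x y : X} (hx : Sm x) : BJ x y ↔ D x y = 0 := by
  constructor
  · intro h
    obtain ⟨g, hg, hgx, hgy⟩ := exists_functional_of_BJ h
    rw [hx.eq_D hg hgx]
    exact hgy
  · intro h
    exact BJ_of_functional (D x) hx.D_norm.1 hx.D_norm.2 h

theorem Sm.ne_zero [Nontrivial X] {x : X} (hx : Sm x) : x ≠ 0 := by
  rintro rfl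
  exact not_differentiableAt_norm_zero X hx

theorem presAt_of_min {T : X →ₗ[ℝ] X} {p : X} (hp : p ≠ 0)
    (h : ∀ z, ‖T p‖ * ‖z‖ ≤ ‖T z‖ * ‖p‖) : PresAt T p := by
  intro y hy t
  have h1 := h (p + t • y)
  have h2 := hy t
  have hp' : 0 < ‖p‖ := norm_pos_iff.2 hp
  rw [map_add, map_smul] at h1
  have h3 : ‖T p‖ * ‖p‖ ≤ ‖T p + t • T y‖ * ‖p‖ :=
    (mul_le_mul_of_nonneg_left h2 (norm_nonneg _)).trans h1
  exact le_of_mul_le_mul_right h3 hp'

theorem Sm.presAt {T : X →ₗ[ℝ] X} {x : X} (hx : Sm x) (hTx : T x = x)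
    (h : ∀ y, D x y = 0 → D x (T y) = 0) : PresAt T x := by
  intro y hy
  rw [hTx, hx.BJ_iff]
  exact h y (hx.BJ_iff.1 hy)

/-- Continuity of the derivative of the norm. -/
theorem Sm.eventually_abs_sub_lt {x : X} (hx : Sm x) (y : X) {ε : ℝ} (hε : 0 < ε) :
    ∀ᶠ z in 𝓝 x, ∀ g : StrongDual ℝ X, ‖g‖ ≤ 1 → g z = ‖z‖ → g y < D x y + ε := by
  have h1 : HasDerivAt (fun t : ℝ => ‖x + t • y‖) (D x y) 0 := by
    have h2 : HasFDerivAt (fun z : X => ‖z‖) (D x) (x + (0 : ℝ) • y) := by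
      simpa using! hx.hasFDerivAt
    have h3 : HasDerivAt (fun t : ℝ => x + t • y) y 0 := by
      simpa using! ((hasDerivAt_id (0 : ℝ)).smul_const y).const_add x
    exact h2.comp_hasDerivAt (0 : ℝ) h3
  obtain ⟨t, ht0, ht⟩ : ∃ t : ℝ, 0 < t ∧ ‖x + t • y‖ - ‖x‖ < t * (D x y + ε) := by
    have h4 := hasDerivAt_iff_tendsto_slope.1 h1
    have h5 : ∀ᶠ t in 𝓝[≠] (0 : ℝ), slope (fun t : ℝ => ‖x + t • y‖) 0 t < D x y + ε :=
      h4.eventually_lt_const (by linarith)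
    have h6 : ∀ᶠ t in 𝓝[>] (0 : ℝ), slope (fun t : ℝ => ‖x + t • y‖) 0 t < D x y + ε :=
      h5.filter_mono (nhdsWithin_mono _ (fun t ht => ne_of_gt ht))
    obtain ⟨t, ht, ht'⟩ := (h6.and self_mem_nhdsWithin).exists
    have ht0 : 0 < t := ht'
    refine ⟨t, ht0, ?_⟩
    rw [slope_def_field, sub_zero, div_lt_iff₀ ht0, zero_smul, add_zero] at ht
    linarith
  have h7 : ∀ᶠ z in 𝓝 x, ‖z + t • y‖ - ‖z‖ < t * (D x y + ε) := by
    have hc : ContinuousAt (fun z : X => ‖z + t • y‖ - ‖z‖) x := by fun_prop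
    exact hc.eventually_lt_const ht
  filter_upwards [h7] with z hz g hg hgz
  have h8 := functional_le hg (z + t • y)
  rw [map_add, map_smul, hgz, smul_eq_mul] at h8
  have h9 : t * g y < t * (D x y + ε) := by linarith
  exact lt_of_mul_lt_mul_left h9 ht0.le

theorem Sm.tendsto_D {x : X} (hx : Sm x) (y : X) :
    Tendsto (fun z => D z y) (𝓝[{z | Sm z}] x) (𝓝 (D x y)) := by
  rw [Metric.tendsto_nhds]
  intro ε hε
  have h1 := hx.eventually_abs_sub_lt y hε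
  have h2 := hx.eventually_abs_sub_lt (-y) hε
  filter_upwards [h1.filter_mono nhdsWithin_le_nhds, h2.filter_mono nhdsWithin_le_nhds,
    self_mem_nhdsWithin] with z hz1 hz2 hz3
  have hz : Sm z := hz3
  have h3 := hz1 (D z) hz.D_norm.1 hz.D_norm.2
  have h4 := hz2 (D z) hz.D_norm.1 hz.D_norm.2
  rw [map_neg, map_neg] at h4
  rw [Real.dist_eq, abs_lt]
  constructor <;> linarith

end Pool.Agent.H68.PK
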