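import Pool.Agent.H68.PKBase

/-!
Facts on Euclidean spaces used for the converse implication.
-/

namespace Pool.Agent.H68.PK

open Module Set Filter Topology Submodule

variable {E : Type*} [NormedAddCommGroup E] [InnerProductSpace ℝ E]

theorem BJ_iff_inner {x y : E} : BJ x y ↔ inner ℝ x y = 0 := by
  have key : ∀ t : ℝ, ‖x + t • y‖ ^ 2 = ‖x‖ ^ 2 + 2 * t * inner ℝ x y + t ^ 2 * ‖y‖ ^ 2 := by
    intro t
    rw [norm_add_sq_real, inner_smul_right, norm_smul, Real.norm_eq_abs, mul_pow, sq_abs]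
    ring
  constructor
  · intro h
    set a : ℝ := inner ℝ x y with ha
    set b : ℝ := ‖y‖ ^ 2 with hb
    have hb0 : 0 ≤ b := by positivity
    have h1 := h (-a / (b + 1))
    have h2 : ‖x‖ ^ 2 ≤ ‖x + (-a / (b + 1)) • y‖ ^ 2 := by gcongr
    rw [key] at h2
    have h3 : 0 ≤ 2 * (-a / (b + 1)) * a + (-a / (b + 1)) ^ 2 * b := by linarith
    have h4 : 2 * (-a / (b + 1)) * a + (-a / (b + 1)) ^ 2 * b = -(a ^ 2 * ((b + 2) / (b + 1) ^ 2)) := by
      field_simp
      ring
    rw [h4] at h3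
    have h5 : 0 < (b + 2) / (b + 1) ^ 2 := by positivity
    have h6 : a ^ 2 ≤ 0 := by
      by_contra h7
      push Not at h7
      have := mul_pos h7 h5
      linarith
    nlinarith [sq_nonneg a]
  · intro h t
    have h1 := key t
    rw [h] at h1
    have h2 : ‖x‖ ^ 2 ≤ ‖x + t • y‖ ^ 2 := by
      rw [h1]
      nlinarith [sq_nonneg t, sq_nonneg ‖y‖, mul_nonneg (sq_nonneg t) (sq_nonneg ‖y‖)]
    exact le_of_sq_le_sq h2 (norm_nonneg _)

theorem presAt_iff_inner {T : E →ₗ[ℝ] E} {x : E} :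
    PresAt T x ↔ ∀ y, inner ℝ x y = 0 → inner ℝ (T x) (T y) = 0 := by
  simp only [PresAt, BJ_iff_inner]

theorem inner_map_of_presAt {T : E →ₗ[ℝ] E} {x : E} (hx : ‖x‖ = 1) (h : PresAt T x) (y : E) :
    inner ℝ (T x) (T y) = ‖T x‖ ^ 2 * inner ℝ x y := by
  rw [presAt_iff_inner] at h
  have h1 := h (y - (inner ℝ x y) • x) (by
    rw [inner_sub_right, inner_smul_right, real_inner_self_eq_norm_sq, hx]
    ring)
  rw [map_sub, map_smul, inner_sub_right, inner_smul_right, real_inner_self_eq_norm_sq] at h1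
  linarith

/-- `A` is not the union of two nonempty mutually orthogonal sets. -/
def Conn (A : Set E) : Prop := ∀ A₁ A₂ : Set E, A₁.Nonempty → A₂.Nonempty → A = A₁ ∪ A₂ →
  ¬ ∀ x ∈ A₁, ∀ y ∈ A₂, inner ℝ x y = 0

theorem similarity_of_conn {A : Set E} (hA : ∀ x ∈ A, ‖x‖ = 1) (hne : A.Nonempty)
    (hspan : span ℝ A = ⊤) (hc : Conn A) {T : E →ₗ[ℝ] E} (hT : ∀ x ∈ A, PresAt T x) :
    ∃ (c : ℝ) (U : E →ₗᵢ[ℝ] E), ∀ x, T x = c • U x := by
  obtain ⟨x₀, hx₀⟩ := hne
  have hconst : ∀ x ∈ A, ‖T x‖ ^ 2 = ‖T x₀‖ ^ 2 := by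
    by_contra hcon
    push Not at hcon
    obtain ⟨x₁, hx₁, hx₁'⟩ := hcon
    refine hc {x ∈ A | ‖T x‖ ^ 2 = ‖T x₀‖ ^ 2} {x ∈ A | ‖T x‖ ^ 2 ≠ ‖T x₀‖ ^ 2}
      ⟨x₀, hx₀, rfl⟩ ⟨x₁, hx₁, hx₁'⟩ ?_ ?_
    · ext x
      constructor
      · intro hx
        by_cases h : ‖T x‖ ^ 2 = ‖T x₀‖ ^ 2
        · exact Or.inl ⟨hx, h⟩
        · exact Or.inr ⟨hx, h⟩
      · rintro (h | h)
        · exact h.1
        · exact h.1
    · rintro x ⟨hx, hx'⟩ y ⟨hy, hy'⟩
      have h1 := inner_map_of_presAt (hA x hx) (hT x hx) y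
      have h2 := inner_map_of_presAt (hA y hy) (hT y hy) x
      rw [real_inner_comm (T x), real_inner_comm x] at h2
      have h3 : (‖T x‖ ^ 2 - ‖T y‖ ^ 2) * inner ℝ x y = 0 := by linarith
      rcases mul_eq_zero.1 h3 with h4 | h4
      · exact absurd (by linarith) hy'
      · exact h4
  set l : ℝ := ‖T x₀‖ with hl
  have hall : ∀ x y : E, inner ℝ (T x) (T y) = l ^ 2 * inner ℝ x y := by
    intro x y
    have hx : x ∈ span ℝ A := by rw [hspan]; trivial
    induction hx using Submodule.span_induction with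
    | mem x hx => rw [inner_map_of_presAt (hA x hx) (hT x hx) y, hconst x hx]
    | zero => simp
    | add x z _ _ h1 h2 => rw [map_add, inner_add_left, inner_add_left, h1, h2]; ring
    | smul a x _ h1 =>
      rw [map_smul, real_inner_smul_left, real_inner_smul_left, h1]
      ring
  have hnorm : ∀ x, ‖T x‖ = l * ‖x‖ := by
    intro x
    have h1 := hall x x
    rw [real_inner_self_eq_norm_sq, real_inner_self_eq_norm_sq, ← mul_pow] at h1
    have h2 : 0 ≤ l * ‖x‖ := by positivity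
    exact (pow_left_inj₀ (norm_nonneg _) h2 two_ne_zero).1 h1
  by_cases hl0 : l = 0
  · refine ⟨0, LinearIsometry.id, fun x => ?_⟩
    have h1 := hnorm x
    rw [hl0, zero_mul, norm_eq_zero] at h1
    rw [h1, zero_smul]
  · have hlpos : 0 < l := lt_of_le_of_ne (norm_nonneg _) (Ne.symm hl0)
    refine ⟨l, ⟨l⁻¹ • T, fun x => ?_⟩, fun x => ?_⟩
    · rw [LinearMap.smul_apply, norm_smul, norm_inv, hnorm, Real.norm_of_nonneg hlpos.le,
        inv_mul_cancel_left₀ hl0]
    · change T x = l • (l⁻¹ • T) x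
      rw [LinearMap.smul_apply, smul_smul, mul_inv_cancel₀ hl0, one_smul]

variable [FiniteDimensional ℝ E]

/-- A set which does not span is not a set of rigidity. -/
theorem exists_bad_of_span_ne {A : Set E} (h2 : 2 ≤ finrank ℝ E) (hA : span ℝ A ≠ ⊤) :
    ∃ T : E →ₗ[ℝ] E, (∀ x ∈ A, PresAt T x) ∧
      ¬ ∃ (c : ℝ) (U : E →ₗᵢ[ℝ] E), ∀ x, T x = c • U x := by
  have : Nontrivial E := Module.nontrivial_of_finrank_pos (R := ℝ) (by omega)
  obtain ⟨u, hu, hu0⟩ : ∃ u ∈ (span ℝ A)ᗮ, u ≠ 0 := by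
    apply Submodule.exists_mem_ne_zero_of_ne_bot
    intro h
    exact hA ((Submodule.orthogonal_eq_bot_iff).1 h)
  have hu' : 0 < ‖u‖ ^ 2 := by
    have := norm_pos_iff.2 hu0
    positivity
  set T : E →ₗ[ℝ] E := LinearMap.id - (‖u‖ ^ 2)⁻¹ • (innerₗ E u).smulRight u with hT
  have hTx : ∀ x, T x = x - ((‖u‖ ^ 2)⁻¹ * inner ℝ u x) • u := by
    intro x
    simp [hT, smul_smul]
  have hTu : T u = 0 := by
    rw [hTx, real_inner_self_eq_norm_sq, inv_mul_cancel₀ hu'.ne', one_smul, sub_self]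
  refine ⟨T, fun x hx => ?_, ?_⟩
  · rw [presAt_iff_inner]
    intro y hy
    have hxu : inner ℝ u x = 0 := by
      rw [real_inner_comm]
      exact (Submodule.mem_orthogonal _ _).1 hu x (subset_span hx)
    have hxu' : inner ℝ x u = 0 := by rw [real_inner_comm, hxu]
    rw [hTx x, hxu, mul_zero, zero_smul, sub_zero, hTx, inner_sub_right, inner_smul_right, hy,
      hxu', mul_zero, sub_zero]
  · rintro ⟨c, U, hcU⟩
    have h1 := hcU u
    rw [hTu] at h1
    have h3 : c = 0 := by
      rcases smul_eq_zero.1 h1.symm with h | h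
      · exact h
      · exfalso
        apply hu0
        have := U.norm_map u
        rw [h, norm_zero] at this
        exact norm_eq_zero.1 this.symm
    -- a vector orthogonal to `u`
    obtain ⟨w, hw, hw0⟩ : ∃ w ∈ (ℝ ∙ u)ᗮ, w ≠ 0 := by
      apply Submodule.exists_mem_ne_zero_of_ne_bot
      intro h
      have h4 := (Submodule.orthogonal_eq_bot_iff).1 h
      have h5 := finrank_span_singleton (K := ℝ) hu0
      rw [h4, finrank_top] at h5
      omega
    have hwu : inner ℝ u w = 0 := Submodule.mem_orthogonal_singleton_iff_inner_right.1 hw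
    have h6 := hcU w
    rw [hTx, hwu, mul_zero, zero_smul, sub_zero, h3, zero_smul] at h6
    exact hw0 h6

/-- A disconnected set is not a set of rigidity. -/
theorem exists_bad_of_not_conn {A : Set E} (hA : ∀ x ∈ A, ‖x‖ = 1) (hc : ¬ Conn A) :
    ∃ T : E →ₗ[ℝ] E, (∀ x ∈ A, PresAt T x) ∧
      ¬ ∃ (c : ℝ) (U : E →ₗᵢ[ℝ] E), ∀ x, T x = c • U x := by
  unfold Conn at hc
  push Not at hc
  obtain ⟨A₁, A₂, ⟨x₁, hx₁⟩, ⟨x₂, hx₂⟩, hA₁₂, horth⟩ := hc
  set P : E →L[ℝ] E := (span ℝ A₁).starProjection with hP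
  have hP1 : ∀ x ∈ A₁, P x = x := fun x hx =>
    Submodule.starProjection_eq_self_iff.2 (subset_span hx)
  have hP2 : ∀ x ∈ A₂, P x = 0 := by
    intro x hx
    rw [hP, Submodule.starProjection_apply_eq_zero_iff]
    rw [Submodule.mem_orthogonal]
    intro y hy
    induction hy using Submodule.span_induction with
    | mem y hy => exact horth y hy x hx
    | zero => simp
    | add y z _ _ h1 h2 => rw [inner_add_left, h1, h2, add_zero]
    | smul a y _ h1 => rw [real_inner_smul_left, h1, mul_zero]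
  have hPs : ∀ x y, inner ℝ x (P y) = inner ℝ (P x) y := fun x y =>
    (Submodule.inner_starProjection_left_eq_right (span ℝ A₁) x y).symm
  set T : E →ₗ[ℝ] E := LinearMap.id + (P : E →ₗ[ℝ] E) with hT
  have hTx : ∀ x, T x = x + P x := fun x => rfl
  refine ⟨T, fun x hx => ?_, ?_⟩
  · rw [presAt_iff_inner]
    intro y hy
    rw [hA₁₂] at hx
    rcases hx with hx | hx
    · rw [hTx, hTx, hP1 x hx, inner_add_left, inner_add_right, hPs, hP1 x hx, hy]
      simp
    · rw [hTx, hTx, hP2 x hx, add_zero, inner_add_right, hPs, hP2 x hx, hy, inner_zero_left,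
        add_zero]
  · rintro ⟨c, U, hcU⟩
    have h1 := hcU x₁
    have h2 := hcU x₂
    rw [hTx, hP1 x₁ hx₁] at h1
    rw [hTx, hP2 x₂ hx₂, add_zero] at h2
    have n1 : ‖x₁‖ = 1 := hA x₁ (by rw [hA₁₂]; exact Or.inl hx₁)
    have n2 : ‖x₂‖ = 1 := hA x₂ (by rw [hA₁₂]; exact Or.inr hx₂)
    have h3 := congrArg norm h1
    have h4 := congrArg norm h2
    rw [norm_smul, U.norm_map, n1, ← two_smul ℝ, norm_smul, n1] at h3
    rw [norm_smul, U.norm_map, n2] at h4
    rw [← h4] at h3
    norm_num at h3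

omit [FiniteDimensional ℝ E] in
theorem Conn.insert' {C : Set E} (hC : Conn C) {x c : E} (hc : c ∈ C) (hxc : inner ℝ x c ≠ 0) :
    Conn (insert x C) := by
  intro A₁ A₂ h₁ h₂ hA horth
  have hsub : C ⊆ A₁ ∪ A₂ := by
    rw [← hA]
    exact subset_insert x C
  have hx : x ∈ A₁ ∪ A₂ := by
    rw [← hA]
    exact mem_insert x C
  by_cases hC1 : (C ∩ A₁).Nonempty
  · by_cases hC2 : (C ∩ A₂).Nonempty
    · refine hC (C ∩ A₁) (C ∩ A₂) hC1 hC2 ?_ fun y hy z hz => horth y hy.2 z hz.2
      rw [← inter_union_distrib_left]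
      exact (inter_eq_left.2 hsub).symm
    · -- all of `C` is in `A₁`
      have hA2 : ∀ y ∈ A₂, y = x := by
        intro y hy
        have : y ∈ insert x C := by
          rw [hA]
          exact Or.inr hy
        rcases this with h | h
        · exact h
        · exact absurd ⟨y, h, hy⟩ hC2
      obtain ⟨y, hy⟩ := h₂
      have hyx := hA2 y hy
      rw [hyx] at hy
      have hc1 : c ∈ A₁ := by
        rcases hsub hc with h | h
        · exact h
        · exact absurd ⟨c, hc, h⟩ hC2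
      apply hxc
      rw [real_inner_comm]
      exact horth c hc1 x hy
  · have hc2 : c ∈ A₂ := by
      rcases hsub hc with h | h
      · exact absurd ⟨c, hc, h⟩ hC1
      · exact h
    obtain ⟨y, hy⟩ := h₁
    have hyx : y = x := by
      have : y ∈ insert x C := by
        rw [hA]
        exact Or.inl hy
      rcases this with h | h
      · exact h
      · exact absurd ⟨y, h, hy⟩ hC1
    rw [hyx] at hy
    exact hxc (horth x hy c hc2)

/-- A connected spanning set contains a connected basis. -/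
theorem exists_conn_basis {A : Set E} (hA : ∀ x ∈ A, ‖x‖ = 1) (hne : A.Nonempty)
    (hspan : span ℝ A = ⊤) (hc : Conn A) : ∀ k : ℕ, k + 1 ≤ finrank ℝ E →
    ∃ f : Fin (k + 1) → E, (∀ i, f i ∈ A) ∧ LinearIndependent ℝ f ∧ Conn (range f) := by
  intro k
  induction k with
  | zero =>
    intro _
    obtain ⟨x, hx⟩ := hne
    have hx0 : x ≠ 0 := by
      intro h
      have := hA x hx
      rw [h, norm_zero] at this
      exact zero_ne_one this
    refine ⟨fun _ => x, fun _ => hx, ?_, ?_⟩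
    · change LinearIndependent ℝ (fun _ : Fin 1 => x)
      rw [linearIndependent_unique_iff]
      exact hx0
    · intro A₁ A₂ h₁ h₂ hA' horth
      obtain ⟨y, hy⟩ := h₁
      obtain ⟨z, hz⟩ := h₂
      have hy' : y ∈ range (fun _ : Fin (0 + 1) => x) := by rw [hA']; exact Or.inl hy
      have hz' : z ∈ range (fun _ : Fin (0 + 1) => x) := by rw [hA']; exact Or.inr hz
      obtain ⟨_, rfl⟩ := hy'
      obtain ⟨_, rfl⟩ := hz'
      have := horth x hy x hz
      rw [inner_self_eq_zero] at this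
      exact hx0 this
  | succ k ih =>
    intro hk
    obtain ⟨f, hfA, hfli, hfc⟩ := ih (by omega)
    have hne' : span ℝ (range f) ≠ ⊤ := by
      intro h
      have h1 := finrank_span_eq_card hfli
      rw [h, finrank_top, Fintype.card_fin] at h1
      omega
    have hex : ∃ x ∈ A, x ∉ span ℝ (range f) := by
      by_contra hall
      push Not at hall
      apply hne'
      rw [eq_top_iff, ← hspan, span_le]
      exact hall
    obtain ⟨x₁, hx₁, hx₁'⟩ := hex
    have hconn := hc {x ∈ A | x ∉ span ℝ (range f)} {x ∈ A | x ∈ span ℝ (range f)}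
      ⟨x₁, hx₁, hx₁'⟩ ⟨f 0, hfA 0, subset_span (mem_range_self 0)⟩ (by
        ext x
        constructor
        · intro hx
          by_cases h : x ∈ span ℝ (range f)
          · exact Or.inr ⟨hx, h⟩
          · exact Or.inl ⟨hx, h⟩
        · rintro (h | h)
          · exact h.1
          · exact h.1)
    push Not at hconn
    obtain ⟨x, ⟨hx, hx'⟩, y, ⟨hy, hy'⟩, hxy⟩ := hconn
    have hc' : ∃ c ∈ range f, inner ℝ x c ≠ 0 := by
      by_contra hall
      push Not at hall
      have h0 : ∀ z ∈ span ℝ (range f), inner ℝ x z = 0 := by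
        intro z hz
        induction hz using Submodule.span_induction with
        | mem z hz => exact hall z hz
        | zero => simp
        | add z w _ _ h1 h2 => rw [inner_add_right, h1, h2, add_zero]
        | smul a z _ h1 => rw [inner_smul_right, h1, mul_zero]
      exact hxy (h0 y hy')
    obtain ⟨c, hcf, hxc⟩ := hc'
    refine ⟨Fin.cons x f, ?_, ?_, ?_⟩
    · intro i
      refine Fin.cases ?_ (fun j => ?_) i
      · exact hx
      · exact hfA j
    · rw [linearIndependent_finCons]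
      exact ⟨hfli, hx'⟩
    · rw [Fin.range_cons]
      exact hfc.insert' hcf hxc

end Pool.Agent.H68.PK
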