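import Pool.Agent.H68.PKRefl

/-!
The invariant inner product.
-/

namespace Pool.Agent.H68.PK

open Module Set Filter Topology Submodule MeasureTheory

variable {X : Type*} [NormedAddCommGroup X] [NormedSpace ℝ X] [FiniteDimensional ℝ X]

theorem integrableOn_form (x y : X) : IntegrableOn (fun g : StrongDual ℝ X => g x * g y)
    (Metric.closedBall 0 1) (Measure.addHaar : Measure (StrongDual ℝ X)) := by
  refine ContinuousOn.integrableOn_compact (isCompact_closedBall _ _) ?_
  exact Continuous.continuousOn (by fun_prop)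

/-- The form of second moments of the unit ball of the dual space. -/
noncomputable def Q (X : Type*) [NormedAddCommGroup X] [NormedSpace ℝ X]
    [FiniteDimensional ℝ X] : X →ₗ[ℝ] X →ₗ[ℝ] ℝ :=
  LinearMap.mk₂ ℝ (fun x y => ∫ g in Metric.closedBall (0 : StrongDual ℝ X) 1, g x * g y
      ∂(Measure.addHaar : Measure (StrongDual ℝ X)))
    (fun x x' y => by
      rw [← integral_add (integrableOn_form x y) (integrableOn_form x' y)]
      simp only [map_add, add_mul])
    (fun c x y => by
      rw [smul_eq_mul, ← integral_const_mul]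
      simp only [map_smul, smul_eq_mul, mul_assoc])
    (fun x y y' => by
      rw [← integral_add (integrableOn_form x y) (integrableOn_form x y')]
      simp only [map_add, mul_add])
    (fun c x y => by
      rw [smul_eq_mul, ← integral_const_mul]
      simp only [map_smul, smul_eq_mul, mul_left_comm])

theorem Q_apply (x y : X) : Q X x y = ∫ g in Metric.closedBall (0 : StrongDual ℝ X) 1, g x * g y
      ∂(Measure.addHaar : Measure (StrongDual ℝ X)) := rfl

theorem Q_symm (x y : X) : Q X x y = Q X y x := by
  rw [Q_apply, Q_apply]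
  simp only [mul_comm]

theorem Q_pos {x : X} (hx : x ≠ 0) : 0 < Q X x x := by
  rw [Q_apply]
  refine (setIntegral_pos_iff_support_of_nonneg_ae (f := fun g : StrongDual ℝ X => g x * g x)
    (Eventually.of_forall fun g => mul_self_nonneg (g x)) (integrableOn_form x x)).2 ?_
  have hopen : IsOpen (Metric.ball (0 : StrongDual ℝ X) 1 ∩ {g | g x ≠ 0}) := by
    refine Metric.isOpen_ball.inter ?_
    exact isOpen_ne_fun (by fun_prop) continuous_const
  have hne : (Metric.ball (0 : StrongDual ℝ X) 1 ∩ {g | g x ≠ 0}).Nonempty := by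
    obtain ⟨g, hg, hgx⟩ := exists_dual_vector'' ℝ x
    have hgx' : g x = ‖x‖ := hgx
    refine ⟨(1 / 2 : ℝ) • g, ?_, ?_⟩
    · rw [mem_ball_zero_iff, norm_smul, Real.norm_of_nonneg (by norm_num)]
      linarith
    · change ((1 / 2 : ℝ) • g) x ≠ 0
      rw [smul_apply, hgx', smul_eq_mul]
      have := norm_pos_iff.2 hx
      positivity
  refine lt_of_lt_of_le (hopen.measure_pos _ hne) (measure_mono ?_)
  rintro g ⟨h1, h2⟩
  exact ⟨mul_self_ne_zero.2 h2, Metric.ball_subset_closedBall h1⟩

theorem Q_invariant {R : X →ₗ[ℝ] X} (hR : ∀ x, ‖R x‖ = ‖x‖) (hRR : ∀ x, R (R x) = x) (x y : X) :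
    Q X (R x) (R y) = Q X x y := by
  set R' : X →L[ℝ] X := LinearMap.toContinuousLinearMap R with hR'
  have hR'x : ∀ z, R' z = R z := fun z => rfl
  let L : StrongDual ℝ X →ₗ[ℝ] StrongDual ℝ X :=
    { toFun := fun g => g.comp R'
      map_add' := fun g h => by ext; simp
      map_smul' := fun c g => by ext; simp }
  have hL : ∀ g z, L g z = g (R z) := fun g z => rfl
  have hinv : Function.Involutive L := by
    intro g
    ext z
    rw [hL, hL, hRR]
  have hnorm : ∀ g, ‖L g‖ ≤ ‖g‖ := by
    intro g
    refine ContinuousLinearMap.opNorm_le_bound _ (norm_nonneg _) fun z => ?_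
    rw [hL, ← hR z]
    exact g.le_opNorm _
  have hnorm' : ∀ g, ‖L g‖ = ‖g‖ := by
    intro g
    apply le_antisymm (hnorm g)
    have := hnorm (L g)
    rwa [hinv g] at this
  have hLL : L ∘ₗ L = LinearMap.id := LinearMap.ext hinv
  have hdet : LinearMap.det L * LinearMap.det L = 1 := by
    rw [← LinearMap.det_comp, hLL, LinearMap.det_id]
  have hdet0 : LinearMap.det L ≠ 0 := by
    intro h
    rw [h, mul_zero] at hdet
    exact zero_ne_one hdet
  have habs : |(LinearMap.det L)⁻¹| = 1 := by
    have h1 : |LinearMap.det L| * |LinearMap.det L| = 1 := by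
      rw [← abs_mul, hdet, abs_one]
    have h2 : |LinearMap.det L| = 1 := by
      nlinarith [abs_nonneg (LinearMap.det L)]
    rw [abs_inv, h2, inv_one]
  have hmp : MeasurePreserving L (Measure.addHaar : Measure (StrongDual ℝ X)) Measure.addHaar := by
    refine ⟨(LinearMap.continuous_of_finiteDimensional L).measurable, ?_⟩
    rw [Measure.map_linearMap_addHaar_eq_smul_addHaar _ hdet0, habs, ENNReal.ofReal_one, one_smul]
  let e : StrongDual ℝ X ≃L[ℝ] StrongDual ℝ X :=
    (LinearEquiv.ofInvolutive L hinv).toContinuousLinearEquiv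
  have hemb : MeasurableEmbedding L := e.toHomeomorph.measurableEmbedding
  have hpre : L ⁻¹' (Metric.closedBall (0 : StrongDual ℝ X) 1) = Metric.closedBall 0 1 := by
    ext g
    rw [mem_preimage, mem_closedBall_zero_iff, mem_closedBall_zero_iff, hnorm']
  have h := hmp.setIntegral_preimage_emb hemb (fun g => g x * g y) (Metric.closedBall 0 1)
  rw [hpre] at h
  exact h

/-- The inequality satisfied by good vectors. -/
def GoodVec (w : X) : Prop := ∀ y, Q X w y * ‖w‖ ≤ Q X w w * ‖y‖

theorem goodVec (hK : KP X) {m : ℕ} (hm : finrank ℝ X = m + 1) (hm0 : 0 < m) (w : X) :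
    GoodVec w := by
  have : Nontrivial X := Module.nontrivial_of_finrank_pos (R := ℝ) (by omega)
  by_cases hw0 : w = 0
  · intro y
    simp [hw0]
  have hc1 : ∀ y, Continuous fun w => Q X w y := fun y =>
    LinearMap.continuous_of_finiteDimensional ((Q X).flip y)
  have hc2 : Continuous fun w => Q X w w := by
    have h1 : Continuous fun w => LinearMap.toContinuousLinearMap (Q X w) :=
      LinearMap.continuous_of_finiteDimensional
        ((LinearMap.toContinuousLinearMap : (X →ₗ[ℝ] ℝ) ≃ₗ[ℝ] StrongDual ℝ X).toLinearMap ∘ₗ Q X)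
    exact h1.clm_apply continuous_id
  have hclosed : IsClosed {w : X | GoodVec w} := by
    have : {w : X | GoodVec w} = ⋂ y : X, {w | Q X w y * ‖w‖ ≤ Q X w w * ‖y‖} := by
      ext w
      simp [GoodVec]
    rw [this]
    exact isClosed_iInter fun y => isClosed_le ((hc1 y).mul continuous_norm)
      (hc2.mul continuous_const)
  let L : X →ₗ[ℝ] StrongDual ℝ X :=
    (LinearMap.toContinuousLinearMap : (X →ₗ[ℝ] ℝ) ≃ₗ[ℝ] StrongDual ℝ X).toLinearMap ∘ₗ Q X
  have hLx : ∀ x y, L x y = Q X x y := fun x y => rfl
  have hinj : Function.Injective L := by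
    rw [injective_iff_map_eq_zero]
    intro x hx
    by_contra hne
    have h1 := Q_pos hne
    rw [← hLx, hx] at h1
    exact lt_irrefl _ h1
  have hrank : finrank ℝ X = finrank ℝ (StrongDual ℝ X) := by
    rw [← LinearEquiv.finrank_eq
      (LinearMap.toContinuousLinearMap : (X →ₗ[ℝ] ℝ) ≃ₗ[ℝ] StrongDual ℝ X)]
    exact (Subspace.dual_finrank_eq (K := ℝ) (V := X)).symm
  have hsurj : Function.Surjective L :=
    (LinearMap.injective_iff_surjective_of_finrank_eq_finrank hrank).1 hinj
  let e : X ≃L[ℝ] StrongDual ℝ X := (LinearEquiv.ofBijective L ⟨hinj, hsurj⟩).toContinuousLinearEquiv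
  have he : ∀ x, e x = L x := fun x => rfl
  have hmem : w ∈ closure {w : X | GoodVec w} := by
    rw [mem_closure_iff_nhds]
    intro U hU
    have h1 : e.symm ⁻¹' U ∈ 𝓝 (e w) := by
      apply e.symm.continuous.continuousAt
      rw [ContinuousLinearEquiv.symm_apply_apply]
      exact hU
    have h2 : e w ≠ 0 := by
      intro h
      exact hw0 (by rw [← e.symm_apply_apply w, h, map_zero])
    obtain ⟨φ, hφU, hφ0, hφs, hφd⟩ := exists_good_functional h2 h1
    refine ⟨e.symm φ, hφU, ?_⟩
    -- the norming vector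
    obtain ⟨y, hyφ, hy0⟩ : ∃ y : X, φ y = 0 ∧ y ≠ 0 := by
      obtain ⟨y, hy, hy'⟩ := exists_kernel hm (fun _ : Fin m => φ)
      exact ⟨y, hy' ⟨0, hm0⟩, hy⟩
    obtain ⟨x, hx, hxφ, -⟩ := hφd y hyφ hy0 1 one_pos
    obtain ⟨v, hv, hφv, -⟩ := exists_norming_at hK hm hm0 hφ0 hx hxφ
    have hφn : 0 < ‖φ‖ := norm_pos_iff.2 hφ0
    have hφv0 : φ v ≠ 0 := by
      rw [hφv]
      exact hφn.ne'
    have hv0 : v ≠ 0 := by
      intro h
      rw [h, norm_zero] at hv
      exact zero_ne_one hv
    have hiso := norm_refl hK hm hm0 hφ0 hφs hφd hv hφv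
    have hQinv := Q_invariant hiso (refl_refl hφv0)
    have hRv : refl φ v v = -v := by
      rw [refl_apply, div_mul_cancel₀ _ hφv0, two_smul]
      abel
    have hQH : ∀ h, φ h = 0 → Q X v h = 0 := by
      intro h hh
      have h3 := hQinv v h
      have h4 : refl φ v h = h := by
        rw [refl_apply, hh, mul_zero, zero_smul, sub_zero]
      rw [hRv, h4, map_neg, LinearMap.neg_apply] at h3
      linarith
    have hQv : ∀ y, Q X v y = Q X v v / φ v * φ y := by
      intro y
      have h3 := hQH (y - (φ y / φ v) • v) (by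
        rw [map_sub, map_smul, smul_eq_mul, div_mul_cancel₀ _ hφv0, sub_self])
      rw [map_sub, map_smul, smul_eq_mul] at h3
      have h4 : Q X v v / φ v * φ y = φ y / φ v * Q X v v := by ring
      rw [h4]
      linarith
    have hQvv := Q_pos hv0
    set c : ℝ := φ v / Q X v v with hc
    have hc0 : 0 < c := by
      rw [hc, hφv]
      positivity
    have hsymm : e.symm φ = c • v := by
      rw [ContinuousLinearEquiv.symm_apply_eq, he, map_smul]
      ext y
      rw [smul_apply, hLx, hQv, hc, smul_eq_mul]
      field_simp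
    rw [hsymm]
    intro y
    have h5 : φ y ≤ φ v * ‖y‖ := by
      rw [hφv]
      exact (le_abs_self _).trans (φ.le_opNorm y)
    have h6 : Q X v y ≤ Q X v v * ‖y‖ := by
      rw [hQv]
      calc Q X v v / φ v * φ y ≤ Q X v v / φ v * (φ v * ‖y‖) := by
            have : 0 ≤ Q X v v / φ v := by
              rw [hφv]
              positivity
            gcongr
        _ = Q X v v * ‖y‖ := by
          field_simp
    rw [norm_smul, hv, mul_one, Real.norm_of_nonneg hc0.le]
    simp only [map_smul, LinearMap.smul_apply, smul_eq_mul]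
    calc c * Q X v y * c = (c * c) * Q X v y := by ring
      _ ≤ (c * c) * (Q X v v * ‖y‖) := by gcongr
      _ = _ := by ring
  rwa [hclosed.closure_eq] at hmem

/-- The final step: the norm is a multiple of the norm of the invariant inner product. -/
theorem norm_sq_mul (hK : KP X) {m : ℕ} (hm : finrank ℝ X = m + 1) (hm0 : 0 < m) (x y : X) :
    ‖x‖ ^ 2 * Q X y y = ‖y‖ ^ 2 * Q X x x := by
  by_cases hdep : ∀ t : ℝ, x + t • (y - x) ≠ 0
  · -- the segment avoids the origin
    set z : ℝ → X := fun t => x + t • (y - x) with hz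
    set q : ℝ → ℝ := fun t => Q X (z t) (z t) with hq
    set a : ℝ → ℝ := fun t => ‖z t‖ * Q X (z t) (y - x) / q t with ha
    have hzc : Continuous z := by
      simp only [hz]
      fun_prop
    have hqpos : ∀ t, 0 < q t := fun t => Q_pos (hdep t)
    have hQz : ∀ s t, Q X (z s) (z t) = q s + (t - s) * Q X (z s) (y - x) := by
      intro s t
      have h1 : z t = z s + (t - s) • (y - x) := by
        simp only [hz, sub_smul]
        abel
      conv_lhs => rw [h1]
      rw [map_add, map_smul, smul_eq_mul]
    have hqder : ∀ s, HasDerivAt q (2 * Q X (z s) (y - x)) s := by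
      intro s
      have h1 : q = fun t => q s + (t - s) * (2 * Q X (z s) (y - x)) +
          (t - s) ^ 2 * Q X (y - x) (y - x) := by
        funext t
        have h2 : z t = z s + (t - s) • (y - x) := by
          simp only [hz, sub_smul]
          abel
        simp only [hq]
        rw [h2]
        simp only [map_add, map_smul, LinearMap.add_apply, LinearMap.smul_apply, smul_eq_mul]
        rw [Q_symm (y - x) (z s)]
        ring
      have h3 : HasDerivAt (fun t : ℝ => q s + (t - s) * (2 * Q X (z s) (y - x)) +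
          (t - s) ^ 2 * Q X (y - x) (y - x)) (1 * (2 * Q X (z s) (y - x)) +
          ((2 : ℕ) * (s - s) ^ (2 - 1) * 1) * Q X (y - x) (y - x)) s := by
        have h4 : HasDerivAt (fun t : ℝ => t - s) 1 s := (hasDerivAt_id s).sub_const s
        exact ((h4.mul_const _).const_add _).add ((h4.pow 2).mul_const _)
      rw [h1]
      convert! h3 using 1
      simp
    have hac : Continuous a := by
      have h1 : Continuous fun t => Q X (z t) (y - x) :=
        (LinearMap.continuous_of_finiteDimensional ((Q X).flip (y - x))).comp hzc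
      have h2 : Continuous q := continuous_iff_continuousAt.2 fun s => (hqder s).continuousAt
      exact (hzc.norm.mul h1).div h2 fun t => (hqpos t).ne'
    have hN : ∀ s t, ‖z s‖ + (t - s) * a s ≤ ‖z t‖ := by
      intro s t
      have h1 := goodVec hK hm hm0 (z s) (z t)
      rw [hQz] at h1
      have h2 : (‖z s‖ + (t - s) * a s) * q s ≤ ‖z t‖ * q s := by
        have h3 : (‖z s‖ + (t - s) * a s) * q s =
            (q s + (t - s) * Q X (z s) (y - x)) * ‖z s‖ := by
          simp only [ha]
          have := (hqpos s).ne'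
          field_simp
        rw [h3]
        calc _ ≤ Q X (z s) (z s) * ‖z t‖ := h1
          _ = _ := mul_comm _ _
      exact le_of_mul_le_mul_right h2 (hqpos s)
    have hNder : ∀ s, HasDerivAt (fun t => ‖z t‖) (a s) s := by
      intro s
      rw [hasDerivAt_iff_isLittleO, Asymptotics.isLittleO_iff]
      intro ε hε
      have h1 : ∀ᶠ t in 𝓝 s, |a t - a s| < ε := by
        have := Metric.tendsto_nhds.1 (hac.continuousAt (x := s)) ε hε
        simpa [Real.dist_eq] using this
      filter_upwards [h1] with t ht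
      have h2 := hN s t
      have h3 := hN t s
      have h4 : 0 ≤ ‖z t‖ - ‖z s‖ - (t - s) * a s := by linarith
      have h5 : ‖z t‖ - ‖z s‖ - (t - s) * a s ≤ (t - s) * (a t - a s) := by linarith
      rw [smul_eq_mul, Real.norm_of_nonneg h4, Real.norm_eq_abs]
      calc _ ≤ (t - s) * (a t - a s) := h5
        _ ≤ |(t - s) * (a t - a s)| := le_abs_self _
        _ = |a t - a s| * |t - s| := by rw [abs_mul, mul_comm]
        _ ≤ ε * |t - s| := mul_le_mul_of_nonneg_right ht.le (abs_nonneg _)
    have hF : ∀ s, HasDerivAt (fun t => ‖z t‖ ^ 2 / q t) 0 s := by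
      intro s
      have h1 := ((hNder s).pow 2).div (hqder s) (hqpos s).ne'
      convert! h1 using 1
      simp only [ha, Pi.pow_apply]
      have := (hqpos s).ne'
      field_simp
      ring
    have hconst := is_const_of_deriv_eq_zero (f := fun t => ‖z t‖ ^ 2 / q t)
      (fun s => (hF s).differentiableAt) (fun s => (hF s).deriv) 0 1
    have h0 : z 0 = x := by simp [hz]
    have h1 : z 1 = y := by simp [hz]
    simp only [hq, h0, h1] at hconst
    have hx := Q_pos (hdep 0)
    have hy := Q_pos (hdep 1)
    simp only [zero_smul, add_zero, one_smul, add_sub_cancel] at hx hy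
    rw [div_eq_div_iff hx.ne' hy.ne'] at hconst
    exact hconst
  · push Not at hdep
    obtain ⟨t, ht⟩ := hdep
    have h1 : (1 - t) • x + t • y = 0 := by
      rw [← ht, sub_smul, smul_sub, one_smul]
      abel
    by_cases ht0 : t = 0
    · rw [ht0, sub_zero, one_smul, zero_smul, add_zero] at h1
      rw [h1]
      simp
    · have h2 : y = (-(t⁻¹ * (1 - t))) • x := by
        have h3 : t • y = -((1 - t) • x) := by
          rw [eq_neg_iff_add_eq_zero, add_comm]
          exact h1
        calc y = t⁻¹ • t • y := by rw [smul_smul, inv_mul_cancel₀ ht0, one_smul]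
          _ = _ := by rw [h3, smul_neg, smul_smul, neg_smul]
      set c : ℝ := -(t⁻¹ * (1 - t)) with hc
      rw [h2, norm_smul, Real.norm_eq_abs, mul_pow, sq_abs]
      simp only [map_smul, LinearMap.smul_apply, smul_eq_mul]
      ring

/-- The main theorem in terms of the property `KP`. -/
theorem hilbert_of_KP (hK : KP X) (h2 : 2 ≤ finrank ℝ X) :
    ∃ B : X →ₗ[ℝ] X →ₗ[ℝ] ℝ, (∀ x y, B x y = B y x) ∧ ∀ x, ‖x‖ ^ 2 = B x x := by
  have : Nontrivial X := Module.nontrivial_of_finrank_pos (R := ℝ) (by omega)
  obtain ⟨m, hm⟩ : ∃ m, finrank ℝ X = m + 1 := ⟨finrank ℝ X - 1, by omega⟩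
  have hm0 : 0 < m := by omega
  obtain ⟨e, he⟩ := exists_ne (0 : X)
  have hQe := Q_pos he
  refine ⟨(‖e‖ ^ 2 / Q X e e) • Q X, fun x y => ?_, fun x => ?_⟩
  · simp only [LinearMap.smul_apply]
    rw [Q_symm x y]
  · have h := norm_sq_mul hK hm hm0 x e
    simp only [LinearMap.smul_apply, smul_eq_mul]
    rw [div_mul_eq_mul_div, eq_div_iff hQe.ne']
    exact h

end Pool.Agent.H68.PK
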