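import Pool.Agent.H68.PKBase

/-!
The property used in the proof, and the null sets of points orthogonal to a given vector.
-/

namespace Pool.Agent.H68.PK

open Module Set Filter Topology MeasureTheory Submodule
open scoped Pointwise

variable {X : Type*} [NormedAddCommGroup X] [NormedSpace ℝ X]

/-- The consequence of property (P) which is used in the proof. -/
def KP (X : Type*) [NormedAddCommGroup X] [NormedSpace ℝ X] : Prop :=
  ∀ (m : ℕ), finrank ℝ X = m + 1 → ∀ (y : Fin m → X) (x₀ : X), LinearIndependent ℝ y →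
    x₀ ∉ span ℝ (range y) → (∀ i j, ¬ BJ (y i) (y j)) → (∃ j, ¬ BJ x₀ (y j)) →
    (∃ j, ¬ BJ (y j) x₀) → ∀ T : X →ₗ[ℝ] X, PresAt T x₀ → (∀ j, PresAt T (y j)) →
    ∃ c : ℝ, ∀ x, ‖T x‖ = c * ‖x‖

theorem BJ.neg_right {x u : X} (h : BJ x u) : BJ x (-u) := by
  have := h.smul 1 (-1)
  rwa [one_smul, neg_one_smul] at this

/-- Along a line, the points orthogonal to the direction of the line form a convex set. -/
theorem BJ.line {x u : X} {s t : ℝ} (hs : BJ (x + s • u) u) (ht : BJ (x + t • u) u) {r : ℝ}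
    (hsr : s ≤ r) (hrt : r ≤ t) : BJ (x + r • u) u ∧ ‖x + r • u‖ = ‖x + s • u‖ := by
  have key : ‖x + r • u‖ ≤ ‖x + s • u‖ := by
    rcases eq_or_lt_of_le (hsr.trans hrt) with h | h
    · have : r = s := le_antisymm (by linarith) hsr
      rw [this]
    · have hts : 0 < t - s := by linarith
      have h1 : x + r • u = ((t - r) / (t - s)) • (x + s • u) + ((r - s) / (t - s)) • (x + t • u) := by
        have e1 : (t - r) / (t - s) + (r - s) / (t - s) = 1 := by
          field_simp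
          ring
        have e2 : (t - r) / (t - s) * s + (r - s) / (t - s) * t = r := by
          field_simp
          ring
        calc x + r • u = ((t - r) / (t - s) + (r - s) / (t - s)) • x
              + ((t - r) / (t - s) * s + (r - s) / (t - s) * t) • u := by rw [e1, e2, one_smul]
          _ = _ := by
            simp only [smul_add, add_smul, mul_smul]
            abel
      have h2 : ‖x + t • u‖ ≤ ‖x + s • u‖ := by
        have := ht (s - t)
        have e : x + t • u + (s - t) • u = x + s • u := by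
          rw [sub_smul]
          abel
        rwa [e] at this
      have a1 : 0 ≤ (t - r) / (t - s) := div_nonneg (by linarith) hts.le
      have a2 : 0 ≤ (r - s) / (t - s) := div_nonneg (by linarith) hts.le
      have a3 : (t - r) / (t - s) + (r - s) / (t - s) = 1 := by
        field_simp
        ring
      calc ‖x + r • u‖ ≤ ‖((t - r) / (t - s)) • (x + s • u)‖ + ‖((r - s) / (t - s)) • (x + t • u)‖ := by
            rw [h1]
            exact norm_add_le _ _
        _ = (t - r) / (t - s) * ‖x + s • u‖ + (r - s) / (t - s) * ‖x + t • u‖ := by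
            rw [norm_smul, norm_smul, Real.norm_of_nonneg a1, Real.norm_of_nonneg a2]
        _ ≤ (t - r) / (t - s) * ‖x + s • u‖ + (r - s) / (t - s) * ‖x + s • u‖ := by gcongr
        _ = ‖x + s • u‖ := by rw [← add_mul, a3, one_mul]
  constructor
  · intro q
    refine key.trans ?_
    have := hs (r + q - s)
    have e : x + s • u + (r + q - s) • u = x + r • u + q • u := by
      rw [sub_smul, add_smul]
      abel
    rwa [e] at this
  · apply le_antisymm key
    have := hs (r - s)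
    have e : x + s • u + (r - s) • u = x + r • u := by
      rw [sub_smul]
      abel
    rwa [e] at this

variable [FiniteDimensional ℝ X]

theorem exists_fin_basis (S : Set X) {n : ℕ} (hn : finrank ℝ (span ℝ S) = n) :
    ∃ f : Fin n → X, (∀ i, f i ∈ S) ∧ LinearIndependent ℝ f ∧ span ℝ (range f) = span ℝ S := by
  subst hn
  obtain ⟨f, h1, h2, h3⟩ := Submodule.exists_fun_fin_finrank_span_eq ℝ S
  exact ⟨f, h1, h3, h2⟩

section Measure

variable [MeasurableSpace X] [BorelSpace X]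

theorem measure_endpoints (μ : Measure X) [μ.IsAddHaarMeasure] {u : X} :
    μ {x | BJ x u ∧ ∀ k : ℕ, ¬ BJ (x - (1 / ((k : ℝ) + 1)) • u) u} = 0 := by
  set a : ℕ → ℝ := fun k => 1 / ((k : ℝ) + 1) with ha
  have ha_pos : ∀ k, 0 < a k := fun k => by
    simp only [ha]
    positivity
  have ha_anti : ∀ {k l : ℕ}, k < l → a l < a k := by
    intro k l hkl
    simp only [ha]
    have : (k : ℝ) < l := by exact_mod_cast hkl
    have h0 : (0 : ℝ) ≤ k := Nat.cast_nonneg k
    gcongr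
  refine Measure.addHaar_eq_zero_of_disjoint_translates μ (fun k => a k • u) ?_ ?_ ?_
  · have h1 : Tendsto (fun k : ℕ => a k • u) atTop (𝓝 ((0 : ℝ) • u)) :=
      (tendsto_one_div_add_atTop_nhds_zero_nat (𝕜 := ℝ)).smul_const u
    exact Metric.isBounded_range_of_tendsto _ h1
  · have key : ∀ k l : ℕ, k < l → ∀ z, z ∈ ({a k • u} : Set X) +
        {x | BJ x u ∧ ∀ k : ℕ, ¬ BJ (x - a k • u) u} →
        z ∈ ({a l • u} : Set X) + {x | BJ x u ∧ ∀ k : ℕ, ¬ BJ (x - a k • u) u} → False := by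
      intro k l hkl z hz1 hz2
      rw [singleton_add] at hz1 hz2
      obtain ⟨x, ⟨hx1, hx2⟩, rfl⟩ := hz1
      obtain ⟨y, ⟨hy1, hy2⟩, hy⟩ := hz2
      have hy' : y = x + (a k - a l) • u := by
        have : a l • u + y = a k • u + x := hy
        have h2 : y = a k • u + x - a l • u := by rw [← this]; abel
        rw [h2, sub_smul]
        abel
      have hpos : 0 < a k - a l := by linarith [ha_anti hkl]
      obtain ⟨N, hN⟩ := exists_nat_one_div_lt hpos
      refine hy2 N ?_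
      have e : y - a N • u = x + (a k - a l - a N) • u := by
        rw [hy', sub_smul (a k - a l)]
        abel
      rw [e]
      have hx0 : BJ (x + (0 : ℝ) • u) u := by simpa using hx1
      rw [hy'] at hy1
      have hN' : a N < a k - a l := hN
      exact (hx0.line hy1 (by linarith) (by linarith [ha_pos N])).1
    intro k l hkl
    rw [Function.onFun, Set.disjoint_left]
    intro z hz1 hz2
    rcases lt_or_gt_of_ne hkl with h | h
    · exact key k l h z hz1 hz2
    · exact key l k h z hz2 hz1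
  · have e : {x | BJ x u ∧ ∀ k : ℕ, ¬ BJ (x - a k • u) u} =
        {x | BJ x u} ∩ ⋂ k : ℕ, {x | BJ (x - a k • u) u}ᶜ := by
      ext x
      simp
    rw [e]
    refine (isClosed_BJ_left u).measurableSet.inter (MeasurableSet.iInter fun k => ?_)
    have : IsClosed {x : X | BJ (x - a k • u) u} :=
      (isClosed_BJ_left u).preimage (f := fun x : X => x - a k • u) (by fun_prop)
    exact this.measurableSet.compl

theorem ae_sm (μ : Measure X) [μ.IsAddHaarMeasure] : ∀ᵐ x ∂μ, Sm x := ae_differentiableAt_norm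

/-- The points orthogonal to a given nonzero vector form a null set. -/
theorem measure_BJ_eq_zero (hK : KP X) (h2 : 2 ≤ finrank ℝ X) (μ : Measure X)
    [μ.IsAddHaarMeasure] {u : X} (hu : u ≠ 0) : μ {x | BJ x u} = 0 := by
  have : Nontrivial X := Module.nontrivial_of_finrank_pos (R := ℝ) (by omega)
  by_contra hne
  have hcov : {x : X | BJ x u} ⊆
      ({x | BJ x u ∧ ∀ k : ℕ, ¬ BJ (x - (1 / ((k : ℝ) + 1)) • u) u} ∪
        {x | BJ x (-u) ∧ ∀ k : ℕ, ¬ BJ (x - (1 / ((k : ℝ) + 1)) • (-u)) (-u)}) ∪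
      ⋃ p : ℕ × ℕ, {x | BJ (x - (1 / ((p.1 : ℝ) + 1)) • u) u ∧
        BJ (x + (1 / ((p.2 : ℝ) + 1)) • u) u} := by
    intro x hx
    by_cases h1 : ∀ k : ℕ, ¬ BJ (x - (1 / ((k : ℝ) + 1)) • u) u
    · exact Or.inl (Or.inl ⟨hx, h1⟩)
    by_cases h3 : ∀ k : ℕ, ¬ BJ (x - (1 / ((k : ℝ) + 1)) • (-u)) (-u)
    · exact Or.inl (Or.inr ⟨BJ.neg_right hx, h3⟩)
    push Not at h1 h3
    obtain ⟨k, hk⟩ := h1
    obtain ⟨l, hl⟩ := h3
    refine Or.inr (mem_iUnion.2 ⟨(k, l), hk, ?_⟩)
    have := hl.neg_right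
    rwa [neg_neg, smul_neg, sub_neg_eq_add] at this
  have hW : ∃ p : ℕ × ℕ, μ {x | BJ (x - (1 / ((p.1 : ℝ) + 1)) • u) u ∧
        BJ (x + (1 / ((p.2 : ℝ) + 1)) • u) u} ≠ 0 := by
    by_contra hall
    push Not at hall
    refine hne (measure_mono_null hcov ?_)
    rw [measure_union_null_iff, measure_union_null_iff]
    exact ⟨⟨measure_endpoints μ, measure_endpoints μ⟩, measure_iUnion_null hall⟩
  obtain ⟨⟨k, l⟩, hkl⟩ := hW
  set a : ℝ := 1 / ((k : ℝ) + 1) with ha
  set b : ℝ := 1 / ((l : ℝ) + 1) with hb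
  have ha0 : 0 < a := by
    rw [ha]
    positivity
  have hb0 : 0 < b := by
    rw [hb]
    positivity
  set W : Set X := {x | Sm x ∧ BJ (x - a • u) u ∧ BJ (x + b • u) u} with hWdef
  have hμW : μ W ≠ 0 := by
    intro h0
    refine hkl ?_
    have hae : ∀ᵐ x ∂μ, ¬ (BJ (x - a • u) u ∧ BJ (x + b • u) u) := by
      have h3 : ∀ᵐ x ∂μ, ¬ x ∈ W := measure_eq_zero_iff_ae_notMem.1 h0
      filter_upwards [ae_sm μ, h3] with x hx1 hx2 hx3
      exact hx2 ⟨hx1, hx3⟩
    exact measure_eq_zero_iff_ae_notMem.2 hae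
  obtain ⟨c, hcW, hc⟩ := exists_mem_forall_mem_nhdsWithin_pos_measure hμW
  have hc0 : c ≠ 0 := hcW.1.ne_zero
  have hcn : 0 < ‖c‖ := norm_pos_iff.2 hc0
  set S : Set X := W ∩ Metric.ball c (‖c‖ / 4) with hS
  have hμS : 0 < μ S :=
    hc S (inter_mem self_mem_nhdsWithin
      (mem_nhdsWithin_of_mem_nhds (Metric.ball_mem_nhds c (by linarith))))
  have hspan : span ℝ S = ⊤ := by
    by_contra hne'
    have h3 := Measure.addHaar_submodule μ (span ℝ S) hne'
    exact hμS.ne' (measure_mono_null subset_span h3)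
  have hnorm : ∀ x ∈ S, 3 / 4 * ‖c‖ < ‖x‖ ∧ ‖x‖ < 2 * ‖c‖ := by
    intro x hx
    have h3 : ‖x - c‖ < ‖c‖ / 4 := by
      rw [← dist_eq_norm]
      exact hx.2
    have h4 : ‖c‖ ≤ ‖x‖ + ‖x - c‖ := by
      calc ‖c‖ = ‖x - (x - c)‖ := by rw [sub_sub_cancel]
        _ ≤ ‖x‖ + ‖x - c‖ := norm_sub_le _ _
    have h5 : ‖x‖ ≤ ‖c‖ + ‖x - c‖ := by
      calc ‖x‖ = ‖c + (x - c)‖ := by rw [add_sub_cancel]
        _ ≤ ‖c‖ + ‖x - c‖ := norm_add_le _ _
    constructor <;> linarith
  have hnotBJ : ∀ x ∈ S, ∀ y ∈ S, ¬ BJ x y := by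
    intro x hx y hy
    apply not_BJ_of_norm_sub_lt
    have h3 : ‖x - c‖ < ‖c‖ / 4 := by
      rw [← dist_eq_norm]
      exact hx.2
    have h4 : ‖y - c‖ < ‖c‖ / 4 := by
      rw [← dist_eq_norm]
      exact hy.2
    have h5 : ‖x - y‖ ≤ ‖x - c‖ + ‖y - c‖ := by
      calc ‖x - y‖ = ‖(x - c) - (y - c)‖ := by rw [sub_sub_sub_cancel_right]
        _ ≤ _ := norm_sub_le _ _
    linarith [(hnorm x hx).1]
  -- the functional
  obtain ⟨ψ, hψ0, hψu⟩ : ∃ ψ : StrongDual ℝ X, ψ ≠ 0 ∧ ψ u = 0 := by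
    have hlt : (ℝ ∙ u) < ⊤ := by
      rw [lt_top_iff_ne_top]
      intro h3
      have h4 := finrank_span_singleton (K := ℝ) hu
      rw [h3, finrank_top] at h4
      omega
    obtain ⟨f, hf, hf'⟩ := Submodule.exists_le_ker_of_lt_top _ hlt
    refine ⟨LinearMap.toContinuousLinearMap f, ?_, ?_⟩
    · simpa using hf
    · exact hf' (mem_span_singleton_self u)
  obtain ⟨δ, hδ0, hδ⟩ : ∃ δ : ℝ, 0 < δ ∧ ∀ x ∈ S, |δ * ψ x| ≤ min a b := by
    refine ⟨min a b / (‖ψ‖ * (2 * ‖c‖) + 1), by positivity, fun x hx => ?_⟩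
    have h3 : |ψ x| ≤ ‖ψ‖ * (2 * ‖c‖) + 1 := by
      calc |ψ x| = ‖ψ x‖ := rfl
        _ ≤ ‖ψ‖ * ‖x‖ := ψ.le_opNorm x
        _ ≤ ‖ψ‖ * (2 * ‖c‖) := by
          gcongr
          exact (hnorm x hx).2.le
        _ ≤ _ := by linarith
    have h4 : 0 < ‖ψ‖ * (2 * ‖c‖) + 1 := by positivity
    have h5 : 0 < min a b := lt_min ha0 hb0
    rw [abs_mul, abs_of_pos (by positivity), div_mul_eq_mul_div, div_le_iff₀ h4]
    exact mul_le_mul_of_nonneg_left h3 h5.le
  set T : X →ₗ[ℝ] X := LinearMap.id + ((δ • ψ : StrongDual ℝ X) : X →ₗ[ℝ] ℝ).smulRight u with hT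
  have hTx : ∀ x, T x = x + (δ * ψ x) • u := by
    intro x
    simp [hT]
  have hpres : ∀ x ∈ S, PresAt T x := by
    intro x hx y hy
    have hxS := hx.1
    have hsm : Sm x := hxS.1
    have h3 : BJ (x + (-a) • u) u := by
      rw [neg_smul, ← sub_eq_add_neg]
      exact hxS.2.1
    have h4 := hδ x hx
    have h5 : |δ * ψ x| ≤ a := h4.trans (min_le_left _ _)
    have h6 : |δ * ψ x| ≤ b := h4.trans (min_le_right _ _)
    have h7 := (h3.line hxS.2.2 (r := δ * ψ x) (by linarith [neg_abs_le (δ * ψ x)])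
      (by linarith [le_abs_self (δ * ψ x)])).2
    have h8 := h3.line hxS.2.2 (r := 0) (by linarith) (by linarith)
    rw [zero_smul, add_zero] at h8
    have hu0 : D x u = 0 := hsm.BJ_iff.1 h8.1
    have hy0 : D x y = 0 := hsm.BJ_iff.1 hy
    have hD := hsm.D_norm
    refine BJ_of_functional (D x) hD.1 ?_ ?_
    · rw [hTx, map_add, map_smul, hu0, hD.2, smul_zero, add_zero, h7, h8.2]
    · rw [hTx, map_add, map_smul, hu0, hy0, smul_zero, add_zero]
  -- choose a basis
  obtain ⟨m, hm⟩ : ∃ m, finrank ℝ X = m + 1 := ⟨finrank ℝ X - 1, by omega⟩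
  obtain ⟨f, hfS, hfli, -⟩ := exists_fin_basis S (n := m + 1) (by rw [hspan, finrank_top, hm])
  rw [linearIndependent_finSucc] at hfli
  obtain ⟨hf1, hf2⟩ := hfli
  have hm0 : 0 < m := by omega
  obtain ⟨q, hq⟩ := hK m hm (Fin.tail f) (f 0) hf1 hf2
    (fun i j => hnotBJ _ (hfS _) _ (hfS _)) ⟨⟨0, hm0⟩, hnotBJ _ (hfS _) _ (hfS _)⟩
    ⟨⟨0, hm0⟩, hnotBJ _ (hfS _) _ (hfS _)⟩ T (hpres _ (hfS _)) (fun j => hpres _ (hfS _))
  have hTu : T u = u := by
    rw [hTx, hψu, mul_zero, zero_smul, add_zero]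
  have hq1 : q = 1 := by
    have h3 := hq u
    rw [hTu] at h3
    have h4 : 0 < ‖u‖ := norm_pos_iff.2 hu
    have h5 : (q - 1) * ‖u‖ = 0 := by linarith
    rcases mul_eq_zero.1 h5 with h6 | h6
    · linarith
    · exact absurd h6 h4.ne'
  obtain ⟨x, hx⟩ : ∃ x, ψ x ≠ 0 := by
    by_contra hall
    push Not at hall
    exact hψ0 (ContinuousLinearMap.ext hall)
  have hiter : ∀ k : ℕ, ‖x + ((k : ℝ) * (δ * ψ x)) • u‖ = ‖x‖ := by
    intro k
    induction k with
    | zero => simp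
    | succ k ih =>
      have h3 := hq (x + ((k : ℝ) * (δ * ψ x)) • u)
      rw [hq1, one_mul, ih, map_add, map_smul, hTu, hTx] at h3
      rw [← h3]
      congr 1
      push_cast
      rw [add_mul, add_smul, one_mul]
      abel
  have hpos : 0 < |δ * ψ x| * ‖u‖ :=
    mul_pos (abs_pos.2 (mul_ne_zero hδ0.ne' hx)) (norm_pos_iff.2 hu)
  obtain ⟨k, hk⟩ := exists_nat_gt (2 * ‖x‖ / (|δ * ψ x| * ‖u‖))
  rw [div_lt_iff₀ hpos] at hk
  have h3 : ‖((k : ℝ) * (δ * ψ x)) • u‖ ≤ ‖x + ((k : ℝ) * (δ * ψ x)) • u‖ + ‖x‖ := by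
    calc ‖((k : ℝ) * (δ * ψ x)) • u‖ = ‖(x + ((k : ℝ) * (δ * ψ x)) • u) - x‖ := by
          rw [add_sub_cancel_left]
      _ ≤ _ := norm_sub_le _ _
  rw [hiter k, norm_smul, Real.norm_eq_abs, abs_mul, abs_of_nonneg (Nat.cast_nonneg k)] at h3
  nlinarith

end Measure

end Pool.Agent.H68.PK
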