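import Pool.Agent.H68.PKTuple

/-!
Reflections.
-/

namespace Pool.Agent.H68.PK

open Module Set Filter Topology Submodule MeasureTheory

variable {X : Type*} [NormedAddCommGroup X] [NormedSpace ℝ X] [FiniteDimensional ℝ X]

theorem exists_fin_basis_containing (S : Set X) {n : ℕ} (hn : finrank ℝ (span ℝ S) = n) {x : X}
    (hx : x ∈ S) (hx0 : x ≠ 0) :
    ∃ f : Fin n → X, (∀ i, f i ∈ S) ∧ LinearIndependent ℝ f ∧ span ℝ (range f) = span ℝ S ∧
      ∃ i, f i = x := by
  obtain ⟨b, hbS, hxb, hSb, hb⟩ := exists_linearIndepOn_id_extension (K := ℝ) (s := {x}) (t := S)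
    (LinearIndepOn.singleton (by simpa using hx0)) (singleton_subset_iff.2 hx)
  have hb' : LinearIndependent ℝ (fun y : b => (y : X)) := hb
  have hspan : span ℝ b = span ℝ S := le_antisymm (span_mono hbS) (span_le.2 hSb)
  have hfin : b.Finite := hb'.setFinite
  have : Fintype b := hfin.fintype
  have hcard : Fintype.card b = n := by
    rw [← hn, ← hspan]
    have := finrank_span_eq_card hb'
    rw [Subtype.range_coe] at this
    exact this.symm
  let e : Fin n ≃ b := (Fintype.equivFinOfCardEq hcard).symm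
  refine ⟨fun i => (e i : X), fun i => hbS (e i).2, hb'.comp _ e.injective, ?_, ?_⟩
  · have : range (fun i => ((e i : b) : X)) = b := by
      rw [show (fun i => ((e i : b) : X)) = (fun y : b => (y : X)) ∘ e from rfl,
        range_comp, e.range_eq_univ, image_univ, Subtype.range_coe]
    rw [this, hspan]
  · exact ⟨e.symm ⟨x, hxb (mem_singleton x)⟩, by simp⟩

omit [FiniteDimensional ℝ X] in
/-- The points of a hyperplane near a given one span the hyperplane. -/
theorem span_ker_inter_ball {φ : StrongDual ℝ X} {x : X} (hx : φ x = 0) {r : ℝ} (hr : 0 < r) :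
    span ℝ {y : X | φ y = 0 ∧ ‖y - x‖ < r} = LinearMap.ker (φ : X →ₗ[ℝ] ℝ) := by
  apply le_antisymm
  · rw [span_le]
    intro y hy
    exact hy.1
  · intro h hh
    have hh' : φ h = 0 := hh
    set δ : ℝ := r / (‖h‖ + 1) with hδ
    have hδ0 : 0 < δ := by positivity
    have h1 : x + δ • h ∈ span ℝ {y : X | φ y = 0 ∧ ‖y - x‖ < r} := by
      refine subset_span ⟨by rw [map_add, map_smul, hx, hh', smul_zero, add_zero], ?_⟩
      rw [add_sub_cancel_left, norm_smul, Real.norm_of_nonneg hδ0.le, hδ, div_mul_eq_mul_div,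
        div_lt_iff₀ (by positivity)]
      nlinarith [norm_nonneg h]
    have h2 : x ∈ span ℝ {y : X | φ y = 0 ∧ ‖y - x‖ < r} :=
      subset_span ⟨hx, by simpa using hr⟩
    have h3 : h = δ⁻¹ • ((x + δ • h) - x) := by
      rw [add_sub_cancel_left, smul_smul, inv_mul_cancel₀ hδ0.ne', one_smul]
    rw [h3]
    exact smul_mem _ _ (sub_mem h1 h2)

theorem finrank_ker {m : ℕ} (hm : finrank ℝ X = m + 1) {φ : StrongDual ℝ X} (hφ : φ ≠ 0) :
    finrank ℝ (LinearMap.ker (φ : X →ₗ[ℝ] ℝ)) = m := by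
  have h1 : (φ : X →ₗ[ℝ] ℝ) ≠ 0 := by
    intro h
    exact hφ (ContinuousLinearMap.coe_injective h)
  have h2 := LinearMap.finrank_range_add_finrank_ker (φ : X →ₗ[ℝ] ℝ)
  have h3 : LinearMap.range (φ : X →ₗ[ℝ] ℝ) = ⊤ := LinearMap.range_eq_top.2 (LinearMap.surjective h1)
  rw [h3, finrank_top, finrank_self, hm] at h2
  omega

/-- For every hyperplane and every smooth point in it there is a common norming direction. -/
theorem exists_norming_at (hK : KP X) {m : ℕ} (hm : finrank ℝ X = m + 1) (hm0 : 0 < m)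
    {φ : StrongDual ℝ X} (hφ : φ ≠ 0) {x : X} (hx : Sm x) (hxφ : φ x = 0) :
    ∃ v : X, ‖v‖ = 1 ∧ φ v = ‖φ‖ ∧ D x v = 0 := by
  have : Nontrivial X := Module.nontrivial_of_finrank_pos (R := ℝ) (by omega)
  have hx0 : x ≠ 0 := hx.ne_zero
  have hxn : 0 < ‖x‖ := norm_pos_iff.2 hx0
  have hspan := span_ker_inter_ball (r := ‖x‖ / 4) hxφ (by positivity)
  obtain ⟨p, hpS, hpli, hpspan, i₀, hi₀⟩ := exists_fin_basis_containing
    {y : X | φ y = 0 ∧ ‖y - x‖ < ‖x‖ / 4} (n := m) (by rw [hspan, finrank_ker hm hφ])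
    (x := x) ⟨hxφ, by simpa using hxn⟩ hx0
  have hclose : ∀ i j, ‖p i - p j‖ < ‖p i‖ := by
    intro i j
    have h1 := (hpS i).2
    have h3 := (hpS j).2
    have h4 : ‖p i - p j‖ ≤ ‖p i - x‖ + ‖p j - x‖ := by
      calc ‖p i - p j‖ = ‖(p i - x) - (p j - x)‖ := by rw [sub_sub_sub_cancel_right]
        _ ≤ _ := norm_sub_le _ _
    have h5 : ‖x‖ ≤ ‖p i‖ + ‖p i - x‖ := by
      calc ‖x‖ = ‖p i - (p i - x)‖ := by rw [sub_sub_cancel]
        _ ≤ _ := norm_sub_le _ _
    linarith
  obtain ⟨v, hv, hvH, hvp⟩ := exists_norming hK hm hm0 hpli hclose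
  rw [hpspan, hspan] at hvH
  have hDv : D x v = 0 := by
    rw [← hx.BJ_iff, ← hi₀]
    exact hvp i₀
  have hφv : φ v ≠ 0 := by
    intro h
    have := hvH (-v) (by change φ (-v) = 0; rw [map_neg, h, neg_zero])
    rw [add_neg_cancel, norm_zero] at this
    linarith
  have habs : |φ v| = ‖φ‖ := by
    apply le_antisymm
    · have := φ.le_opNorm v
      rwa [hv, mul_one] at this
    · refine φ.opNorm_le_bound (abs_nonneg _) fun y => ?_
      by_cases hy : φ y = 0
      · rw [hy, norm_zero]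
        positivity
      · have h1 := hvH ((φ v / φ y) • y - v) (by
          change φ ((φ v / φ y) • y - v) = 0
          rw [map_sub, map_smul, smul_eq_mul, div_mul_cancel₀ _ hy, sub_self])
        rw [add_sub_cancel, norm_smul, norm_div, Real.norm_eq_abs, Real.norm_eq_abs] at h1
        rw [Real.norm_eq_abs]
        have hy' : 0 < |φ y| := abs_pos.2 hy
        calc |φ y| = |φ y| * 1 := (mul_one _).symm
          _ ≤ |φ y| * (|φ v| / |φ y| * ‖y‖) := by gcongr
          _ = |φ v| * ‖y‖ := by field_simp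
  rcases abs_choice (φ v) with h | h
  · exact ⟨v, hv, by rw [← h, habs], hDv⟩
  · exact ⟨-v, by rw [norm_neg, hv], by rw [map_neg, ← h, habs], by rw [map_neg, hDv, neg_zero]⟩

omit [FiniteDimensional ℝ X] in
/-- If the dual norm is differentiable at `φ`, then the norming vector of `φ` is unique. -/
theorem unique_norming {φ : StrongDual ℝ X} (hφ : Sm φ) {v w : X} (hv : ‖v‖ = 1) (hw : ‖w‖ = 1)
    (hφv : φ v = ‖φ‖) (hφw : φ w = ‖φ‖) : v = w := by
  have h1 : ∀ u : X, ‖u‖ = 1 → φ u = ‖φ‖ → D φ = NormedSpace.inclusionInDoubleDual ℝ X u := by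
    intro u hu hφu
    refine hφ.eq_D ?_ ?_
    · exact (NormedSpace.double_dual_bound ℝ X u).trans hu.le
    · rw [NormedSpace.dual_def]
      exact hφu
  refine (SeparatingDual.eq_iff_forall_dual_eq (R := ℝ)).2 fun g => ?_
  have h2 := (h1 v hv hφv).symm.trans (h1 w hw hφw)
  have h3 := congrArg (fun F => F g) h2
  simpa [NormedSpace.dual_def] using h3

/-- Many functionals have a unique norming vector and a kernel with a dense set of smooth
points. -/
theorem exists_good_functional {φ₁ : StrongDual ℝ X} (hφ₁ : φ₁ ≠ 0) {U : Set (StrongDual ℝ X)}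
    (hU : U ∈ 𝓝 φ₁) : ∃ φ ∈ U, φ ≠ 0 ∧ Sm φ ∧
      ∀ y, φ y = 0 → y ≠ 0 → ∀ ε : ℝ, 0 < ε → ∃ x, Sm x ∧ φ x = 0 ∧ ‖x - y‖ < ε := by
  let _ : MeasurableSpace X := borel X
  have _ : BorelSpace X := ⟨rfl⟩
  let μ : Measure (X →L[ℝ] X) := Measure.addHaar
  let ν : Measure X := Measure.addHaar
  let ρ : Measure (StrongDual ℝ X) := Measure.addHaar
  -- dense sequence in the kernel
  obtain ⟨w, hw⟩ := TopologicalSpace.exists_dense_seq (LinearMap.ker (φ₁ : X →ₗ[ℝ] ℝ))
  have h1 : ∀ᵐ A ∂μ, ∀ k : ℕ, (w k : X) ≠ 0 → Sm (A (w k : X)) := by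
    rw [ae_all_iff]
    intro k
    by_cases hk : (w k : X) = 0
    · exact Eventually.of_forall fun A h => absurd hk h
    · let L : (X →L[ℝ] X) →ₗ[ℝ] X :=
        { toFun := fun A => A (w k : X)
          map_add' := fun A B => rfl
          map_smul' := fun c A => rfl }
      have hL : Function.Surjective L := by
        intro z
        obtain ⟨g, -, hg⟩ := exists_dual_vector ℝ (w k : X) (norm_ne_zero_iff.2 hk)
        have hg' : g (w k : X) = ‖(w k : X)‖ := hg
        refine ⟨(‖(w k : X)‖⁻¹ • g).smulRight z, ?_⟩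
        change (‖(w k : X)‖⁻¹ • g) (w k : X) • z = z
        rw [smul_apply, hg', smul_eq_mul,
          inv_mul_cancel₀ (norm_ne_zero_iff.2 hk), one_smul]
      have h3 := (ae_comp_linearMap_mem_iff (μ := μ) (ν := ν) L hL (s := {x | Sm x})
        (measurableSet_of_differentiableAt ℝ _)).2 (ae_sm ν)
      filter_upwards [h3] with A hA _
      exact hA
  have h2 : ∀ᵐ B ∂μ, Sm (φ₁.comp B) := by
    let L : (X →L[ℝ] X) →ₗ[ℝ] StrongDual ℝ X :=
      { toFun := fun B => φ₁.comp B
        map_add' := fun A B => by ext; simp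
        map_smul' := fun c A => by ext; simp }
    have hL : Function.Surjective L := by
      intro ψ
      obtain ⟨e, he⟩ : ∃ e, φ₁ e ≠ 0 := by
        by_contra hall
        push Not at hall
        exact hφ₁ (ContinuousLinearMap.ext hall)
      refine ⟨ψ.smulRight ((φ₁ e)⁻¹ • e), ?_⟩
      change φ₁.comp (ψ.smulRight ((φ₁ e)⁻¹ • e)) = ψ
      ext y
      simp [he]
    exact (ae_comp_linearMap_mem_iff (μ := μ) (ν := ρ) L hL (s := {x | Sm x})
      (measurableSet_of_differentiableAt ℝ _)).2 (ae_sm ρ)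
  set N : Set (X →L[ℝ] X) := {B | ¬ Sm (φ₁.comp B)} ∩ {B | IsUnit B} with hN
  have hN0 : μ N = 0 := measure_mono_null inter_subset_left (ae_iff.1 h2)
  have hinv : μ (Ring.inverse '' N) = 0 :=
    addHaar_image_eq_zero_of_differentiableOn_of_addHaar_eq_zero μ
      (fun B hB => (differentiableAt_inverse hB.2).differentiableWithinAt) hN0
  have h3 : ∀ᵐ A ∂μ, A ∉ Ring.inverse '' N := measure_eq_zero_iff_ae_notMem.1 hinv
  have hdense := Measure.dense_of_ae (h1.and h3)
  have hfreq := mem_closure_iff_frequently.1 (hdense (1 : X →L[ℝ] X))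
  have hunit : ∀ᶠ A in 𝓝 (1 : X →L[ℝ] X), IsUnit A :=
    Units.isOpen.mem_nhds isUnit_one
  have hcont : ∀ᶠ A in 𝓝 (1 : X →L[ℝ] X), φ₁.comp (Ring.inverse A) ∈ U := by
    have hc : ContinuousAt (fun A : X →L[ℝ] X => φ₁.comp (Ring.inverse A)) 1 := by
      have h4 : ContinuousAt (Ring.inverse : (X →L[ℝ] X) → (X →L[ℝ] X)) 1 :=
        (differentiableAt_inverse (𝕜 := ℝ) isUnit_one).continuousAt
      have h5 : Continuous fun B : X →L[ℝ] X => φ₁.comp B := by fun_prop
      exact h5.continuousAt.comp h4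
    apply hc
    have h6 : φ₁.comp (Ring.inverse (1 : X →L[ℝ] X)) = φ₁ := by
      rw [Ring.inverse_one]
      ext x
      rfl
    change U ∈ 𝓝 (φ₁.comp (Ring.inverse (1 : X →L[ℝ] X)))
    rw [h6]
    exact hU
  obtain ⟨A, ⟨hA1, hA2⟩, hA3, hA4⟩ := (hfreq.and_eventually (hunit.and hcont)).exists
  obtain ⟨u, rfl⟩ := hA3
  rw [Ring.inverse_unit] at hA4
  set A : X →L[ℝ] X := (u : X →L[ℝ] X) with hA
  set B : X →L[ℝ] X := ((u⁻¹ : (X →L[ℝ] X)ˣ) : X →L[ℝ] X) with hB
  have hABx : ∀ x, A (B x) = x := fun x => by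
    have := congrArg (fun F : X →L[ℝ] X => F x) (Units.mul_inv u)
    exact this
  have hBAx : ∀ x, B (A x) = x := fun x => by
    have := congrArg (fun F : X →L[ℝ] X => F x) (Units.inv_mul u)
    exact this
  refine ⟨φ₁.comp B, hA4, ?_, ?_, ?_⟩
  · intro h
    apply hφ₁
    ext x
    have h6 := congrArg (fun F : StrongDual ℝ X => F (A x)) h
    have h7 : φ₁ (B (A x)) = 0 := h6
    rw [hBAx] at h7
    exact h7
  · by_contra hns
    refine hA2 ⟨B, ⟨hns, ⟨u⁻¹, rfl⟩⟩, ?_⟩
    rw [hB, Ring.inverse_unit, inv_inv]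
  · intro y hy hy0 ε hε
    have hy' : φ₁ (B y) = 0 := hy
    set z : LinearMap.ker (φ₁ : X →ₗ[ℝ] ℝ) := ⟨B y, hy'⟩ with hz
    have hBy : B y ≠ 0 := by
      intro h
      apply hy0
      rw [← hABx y, h, map_zero]
    have hBy' : 0 < ‖B y‖ := norm_pos_iff.2 hBy
    obtain ⟨k, hk⟩ := Metric.denseRange_iff.1 hw z (min ‖B y‖ (ε / (‖A‖ + 1))) (by positivity)
    have hk1 : ‖B y - (w k : X)‖ < ‖B y‖ := by
      have := hk.trans_le (min_le_left _ _)
      rwa [dist_eq_norm] at this
    have hk2 : ‖B y - (w k : X)‖ < ε / (‖A‖ + 1) := by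
      have := hk.trans_le (min_le_right _ _)
      rwa [dist_eq_norm] at this
    have hwk : (w k : X) ≠ 0 := by
      intro h
      rw [h, sub_zero] at hk1
      exact lt_irrefl _ hk1
    refine ⟨A (w k : X), hA1 k hwk, ?_, ?_⟩
    · change φ₁ (B (A (w k : X))) = 0
      rw [hBAx]
      exact (w k).2
    · have h6 : A (w k : X) - y = A ((w k : X) - B y) := by
        rw [map_sub, hABx]
      rw [h6]
      calc ‖A ((w k : X) - B y)‖ ≤ ‖A‖ * ‖(w k : X) - B y‖ := A.le_opNorm _
        _ = ‖A‖ * ‖B y - (w k : X)‖ := by rw [norm_sub_rev]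
        _ ≤ ‖A‖ * (ε / (‖A‖ + 1)) := by gcongr
        _ = ε * (‖A‖ / (‖A‖ + 1)) := by ring
        _ < ε * 1 := by
          gcongr
          rw [div_lt_one (by positivity)]
          linarith
        _ = ε := mul_one ε

/-- The reflection in a hyperplane along a vector. -/
noncomputable def refl (φ : StrongDual ℝ X) (v : X) : X →ₗ[ℝ] X :=
  LinearMap.id - ((2 / φ v) • (φ : X →ₗ[ℝ] ℝ)).smulRight v

omit [FiniteDimensional ℝ X] in
theorem refl_apply (φ : StrongDual ℝ X) (v x : X) : refl φ v x = x - (2 / φ v * φ x) • v := by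
  simp [refl]

omit [FiniteDimensional ℝ X] in
theorem refl_refl {φ : StrongDual ℝ X} {v : X} (h : φ v ≠ 0) (x : X) :
    refl φ v (refl φ v x) = x := by
  rw [refl_apply, refl_apply, map_sub, map_smul, smul_eq_mul]
  have : 2 / φ v * (φ x - 2 / φ v * φ x * φ v) = -(2 / φ v * φ x) := by
    field_simp
    ring
  rw [this, neg_smul, sub_neg_eq_add, sub_add_cancel]

/-- The reflections attached to good functionals are isometries. -/
theorem norm_refl (hK : KP X) {m : ℕ} (hm : finrank ℝ X = m + 1) (hm0 : 0 < m)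
    {φ : StrongDual ℝ X} (hφ : φ ≠ 0) (hsm : Sm φ)
    (hd : ∀ y, φ y = 0 → y ≠ 0 → ∀ ε : ℝ, 0 < ε → ∃ x, Sm x ∧ φ x = 0 ∧ ‖x - y‖ < ε)
    {v : X} (hv : ‖v‖ = 1) (hφv : φ v = ‖φ‖) (x : X) : ‖refl φ v x‖ = ‖x‖ := by
  have : Nontrivial X := Module.nontrivial_of_finrank_pos (R := ℝ) (by omega)
  have hφv0 : φ v ≠ 0 := by
    rw [hφv]
    exact norm_ne_zero_iff.2 hφ
  have hDv : ∀ y, Sm y → φ y = 0 → D y v = 0 := by
    intro y hy hy0
    obtain ⟨w, hw, hφw, hDw⟩ := exists_norming_at hK hm hm0 hφ hy hy0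
    rw [unique_norming hsm hv hw hφv hφw]
    exact hDw
  have hRH : ∀ y, φ y = 0 → refl φ v y = y := by
    intro y hy
    rw [refl_apply, hy, mul_zero, zero_smul, sub_zero]
  have hpres : ∀ y, Sm y → φ y = 0 → PresAt (refl φ v) y := by
    intro y hy hy0
    refine hy.presAt (hRH y hy0) fun z hz => ?_
    rw [refl_apply, map_sub, map_smul, hz, hDv y hy hy0, smul_zero, sub_zero]
  obtain ⟨q, hq, hmin⟩ := exists_min (refl φ v)
  by_cases hq1 : 1 ≤ ‖refl φ v q‖
  · have hge : ∀ z, ‖z‖ ≤ ‖refl φ v z‖ := by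
      intro z
      refine le_trans ?_ (hmin z)
      nlinarith [norm_nonneg z]
    apply le_antisymm
    · have := hge (refl φ v x)
      rwa [refl_refl hφv0] at this
    · exact hge x
  · exfalso
    push Not at hq1
    have hqH : φ q ≠ 0 := by
      intro h
      rw [hRH q h, hq] at hq1
      exact lt_irrefl _ hq1
    -- the component in the hyperplane
    set u : X := q - (φ q / φ v) • v with hu
    have hφu : φ u = 0 := by
      rw [hu, map_sub, map_smul, smul_eq_mul, div_mul_cancel₀ _ hφv0, sub_self]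
    have hRq : refl φ v q = -(q - (2 : ℝ) • u) := by
      rw [refl_apply, hu, smul_sub, smul_smul, two_smul]
      have : 2 / φ v * φ q = 2 * (φ q / φ v) := by ring
      rw [this]
      abel
    have hu0 : u ≠ 0 := by
      intro h
      rw [hRq, h, smul_zero, sub_zero, norm_neg, hq] at hq1
      exact lt_irrefl _ hq1
    have hqu : ¬ BJ q u := by
      intro h
      have := h (-2)
      have h6 : q + (-2 : ℝ) • u = q - (2 : ℝ) • u := by
        rw [neg_smul, ← sub_eq_add_neg]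
      rw [h6, hq] at this
      rw [hRq, norm_neg] at hq1
      linarith
    -- a neighbourhood of `u`
    have hopen : {y : X | ¬ BJ q y} ∈ 𝓝 u := (isClosed_BJ_right q).isOpen_compl.mem_nhds hqu
    obtain ⟨r, hr, hr'⟩ := Metric.mem_nhds_iff.1 hopen
    have hun : 0 < ‖u‖ := norm_pos_iff.2 hu0
    set ρ : ℝ := min r (‖u‖ / 4) with hρ
    have hρ0 : 0 < ρ := by positivity
    set S : Set X := {y : X | Sm y ∧ φ y = 0 ∧ ‖y - u‖ < ρ} with hS
    have hspan : span ℝ S = LinearMap.ker (φ : X →ₗ[ℝ] ℝ) := by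
      apply le_antisymm
      · rw [span_le]
        intro y hy
        exact hy.2.1
      · rw [← span_ker_inter_ball hφu (r := ρ) hρ0, span_le]
        intro y hy
        have hy1 : φ y = 0 := hy.1
        have hy2 : ‖y - u‖ < ρ := hy.2
        have hcl : y ∈ closure (span ℝ S : Set X) := by
          rw [Metric.mem_closure_iff]
          intro ε hε
          have hy0 : y ≠ 0 := by
            intro h
            rw [h, zero_sub, norm_neg] at hy2
            have := min_le_right r (‖u‖ / 4)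
            linarith
          obtain ⟨z, hz1, hz2, hz3⟩ := hd y hy1 hy0 (min ε (ρ - ‖y - u‖))
            (lt_min hε (by linarith))
          refine ⟨z, subset_span ⟨hz1, hz2, ?_⟩, ?_⟩
          · have h7 := hz3.trans_le (min_le_right _ _)
            calc ‖z - u‖ = ‖(z - y) + (y - u)‖ := by rw [sub_add_sub_cancel]
              _ ≤ ‖z - y‖ + ‖y - u‖ := norm_add_le _ _
              _ < ρ := by linarith
          · rw [dist_comm, dist_eq_norm]
            exact hz3.trans_le (min_le_left _ _)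
        rwa [(Submodule.closed_of_finiteDimensional (span ℝ S)).closure_eq] at hcl
    obtain ⟨f, hfS, hfli, hfspan⟩ := exists_fin_basis S (n := m) (by rw [hspan, finrank_ker hm hφ])
    have hclose : ∀ y ∈ S, ‖y - u‖ < ‖u‖ / 4 := fun y hy => hy.2.2.trans_le (min_le_right _ _)
    have hclose' : ∀ y ∈ S, 3 / 4 * ‖u‖ < ‖y‖ := by
      intro y hy
      have h6 : ‖u‖ ≤ ‖y‖ + ‖y - u‖ := by
        calc ‖u‖ = ‖y - (y - u)‖ := by rw [sub_sub_cancel]
          _ ≤ _ := norm_sub_le _ _
      linarith [hclose y hy]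
    have hyy : ∀ y ∈ S, ∀ z ∈ S, ¬ BJ y z := by
      intro y hy z hz
      apply not_BJ_of_norm_sub_lt
      have h6 : ‖y - z‖ ≤ ‖y - u‖ + ‖z - u‖ := by
        calc ‖y - z‖ = ‖(y - u) - (z - u)‖ := by rw [sub_sub_sub_cancel_right]
          _ ≤ _ := norm_sub_le _ _
      linarith [hclose y hy, hclose z hz, hclose' y hy]
    have hqS : ∀ y ∈ S, ¬ BJ q y := by
      intro y hy
      apply hr'
      rw [Metric.mem_ball, dist_eq_norm]
      exact hy.2.2.trans_le (min_le_left _ _)
    have hSq : ∀ y ∈ S, ¬ BJ y q := by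
      intro y hy hB
      have h6 : D y q = 0 := hy.1.BJ_iff.1 hB
      have h7 : D y u = 0 := by
        rw [hu, map_sub, map_smul, h6, hDv y hy.1 hy.2.1, smul_zero, sub_zero]
      refine not_BJ_of_norm_sub_lt ?_ (hy.1.BJ_iff.2 h7)
      linarith [hclose y hy, hclose' y hy]
    have hqspan : q ∉ span ℝ (range f) := by
      rw [hfspan, hspan]
      exact hqH
    have hq0 : q ≠ 0 := by
      intro h
      rw [h, norm_zero] at hq
      exact zero_ne_one hq
    obtain ⟨c, hc⟩ := hK m hm f q hfli hqspan (fun i j => hyy _ (hfS i) _ (hfS j))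
      ⟨⟨0, hm0⟩, hqS _ (hfS _)⟩ ⟨⟨0, hm0⟩, hSq _ (hfS _)⟩ (refl φ v)
      (presAt_of_min hq0 fun z => by rw [hq, mul_one]; exact hmin z)
      (fun j => hpres _ (hfS j).1 (hfS j).2.1)
    have h6 := hc (f ⟨0, hm0⟩)
    rw [hRH _ (hfS ⟨0, hm0⟩).2.1] at h6
    have h7 : 0 < ‖f ⟨0, hm0⟩‖ := norm_pos_iff.2 (hfS ⟨0, hm0⟩).1.ne_zero
    have h8 : c = 1 := by
      have : (c - 1) * ‖f ⟨0, hm0⟩‖ = 0 := by linarith
      rcases mul_eq_zero.1 this with h9 | h9
      · linarith
      · exact absurd h9 h7.ne'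
    have h9 := hc q
    rw [h8, hq, one_mul] at h9
    linarith

end Pool.Agent.H68.PK
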