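import Pool.Agent.H68.PKNull

/-!
Vectors killed by the support functionals of a good tuple are orthogonal to the tuple.
-/

namespace Pool.Agent.H68.PK

open Module Set Filter Topology Submodule

variable {X : Type*} [NormedAddCommGroup X] [NormedSpace ℝ X] [FiniteDimensional ℝ X]

theorem exists_min [Nontrivial X] (T : X →ₗ[ℝ] X) :
    ∃ p : X, ‖p‖ = 1 ∧ ∀ z, ‖T p‖ * ‖z‖ ≤ ‖T z‖ := by
  have hc : Continuous fun z => ‖T z‖ := (LinearMap.continuous_of_finiteDimensional T).norm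
  have hne : (Metric.sphere (0 : X) 1).Nonempty := by
    rw [NormedSpace.sphere_nonempty]
    exact zero_le_one
  obtain ⟨p, hp, hmin⟩ := (isCompact_sphere (0 : X) 1).exists_isMinOn hne hc.continuousOn
  have hp1 : ‖p‖ = 1 := by simpa using hp
  refine ⟨p, hp1, fun z => ?_⟩
  by_cases hz : z = 0
  · simp [hz]
  · have hz' : 0 < ‖z‖ := norm_pos_iff.2 hz
    have h1 : ‖z‖⁻¹ • z ∈ Metric.sphere (0 : X) 1 := by
      simp [norm_smul, hz]
    have h2 : ‖T p‖ ≤ ‖T (‖z‖⁻¹ • z)‖ := hmin h1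
    rw [map_smul, norm_smul, norm_inv, norm_norm] at h2
    calc ‖T p‖ * ‖z‖ ≤ (‖z‖⁻¹ * ‖T z‖) * ‖z‖ := by gcongr
      _ = ‖T z‖ := by
        field_simp

/-- A limit argument. -/
theorem BJ_of_approx {v y : X} (hv : v ≠ 0)
    (h : ∀ ε : ℝ, 0 < ε → ε < 1 → ∃ (p : X) (a : ℝ), ‖p‖ = 1 ∧ ‖p - a • v‖ < ε ∧ BJ p y) :
    BJ v y := by
  have hv' : 0 < ‖v‖ := norm_pos_iff.2 hv
  have hmem : v ∈ closure {q : X | BJ q y} := by
    rw [Metric.mem_closure_iff]
    intro δ hδ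
    obtain ⟨p, a, hp, hpa, hB⟩ := h (min (1 / 2) (δ / (2 * ‖v‖))) (by positivity)
      (by linarith [min_le_left (1 / 2 : ℝ) (δ / (2 * ‖v‖))])
    have h1 : ‖p - a • v‖ < 1 / 2 := hpa.trans_le (min_le_left _ _)
    have h2 : ‖p - a • v‖ < δ / (2 * ‖v‖) := hpa.trans_le (min_le_right _ _)
    have h3 : 1 / 2 < |a| * ‖v‖ := by
      have h4 : ‖p‖ ≤ ‖p - a • v‖ + ‖a • v‖ := by
        calc ‖p‖ = ‖(p - a • v) + a • v‖ := by rw [sub_add_cancel]
          _ ≤ _ := norm_add_le _ _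
      rw [hp, norm_smul, Real.norm_eq_abs] at h4
      linarith
    have ha : a ≠ 0 := by
      rintro rfl
      simp at h3
      linarith
    have ha' : 0 < |a| := abs_pos.2 ha
    refine ⟨a⁻¹ • p, ?_, ?_⟩
    · have := hB.smul a⁻¹ 1
      rwa [one_smul] at this
    · rw [dist_eq_norm, ← norm_neg, neg_sub]
      have h5 : a⁻¹ • p - v = a⁻¹ • (p - a • v) := by
        rw [smul_sub, smul_smul, inv_mul_cancel₀ ha, one_smul]
      rw [h5, norm_smul, norm_inv, Real.norm_eq_abs]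
      calc |a|⁻¹ * ‖p - a • v‖ < |a|⁻¹ * (δ / (2 * ‖v‖)) := by gcongr
        _ = δ * ((2 * (|a| * ‖v‖))⁻¹) := by field_simp
        _ ≤ δ * 1 := by
          have h6 : 1 ≤ 2 * (|a| * ‖v‖) := by linarith
          have h7 : (2 * (|a| * ‖v‖))⁻¹ ≤ 1 := inv_le_one_of_one_le₀ h6
          gcongr
        _ = δ := mul_one δ
  rwa [(isClosed_BJ_left y).closure_eq] at hmem

theorem star (hK : KP X) {m : ℕ} (hm : finrank ℝ X = m + 1) (hm0 : 0 < m) {x : Fin m → X}
    (hs : ∀ l, Sm (x l)) (hli : LinearIndependent ℝ x) (hno : ∀ i j, ¬ BJ (x i) (x j)) {v : X}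
    (hv : v ≠ 0) (hfv : ∀ l, D (x l) v = 0)
    (hker : ∀ y, (∀ l, D (x l) y = 0) → ∃ c : ℝ, y = c • v) (l : Fin m) : BJ v (x l) := by
  have : Nontrivial X := Module.nontrivial_of_finrank_pos (R := ℝ) (by omega)
  have hv' : 0 < ‖v‖ := norm_pos_iff.2 hv
  set H : Submodule ℝ X := span ℝ (range x) with hH
  have hHr : finrank ℝ H = m := by
    rw [hH, finrank_span_eq_card hli, Fintype.card_fin]
  have hlt : H < ⊤ := by
    rw [lt_top_iff_ne_top]
    intro h3
    rw [h3, finrank_top] at hHr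
    omega
  obtain ⟨φ, hφ, hφ'⟩ := Submodule.exists_le_ker_of_lt_top _ hlt
  have hkerH : ∀ y, φ y = 0 → y ∈ H := by
    intro y hy
    have h1 : H = LinearMap.ker φ := by
      apply Submodule.eq_of_le_of_finrank_eq hφ'
      have h2 := LinearMap.finrank_range_add_finrank_ker φ
      have h3 : LinearMap.range φ = ⊤ := LinearMap.range_eq_top.2 (LinearMap.surjective hφ)
      rw [h3, finrank_top, finrank_self, hm] at h2
      omega
    rw [h1]
    exact hy
  have hxH : ∀ l, x l ∈ H := fun l => subset_span (mem_range_self l)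
  have hφx : ∀ y ∈ H, φ y = 0 := fun y hy => hφ' hy
  have hx0 : ∀ l, x l ≠ 0 := fun l => (hs l).ne_zero
  -- the operators
  set T : ℝ → X →ₗ[ℝ] X := fun μ => LinearMap.id + (μ • φ).smulRight v with hT
  have hTx : ∀ μ y, T μ y = y + (μ * φ y) • v := by
    intro μ y
    simp [hT]
  have hTH : ∀ μ, ∀ y ∈ H, T μ y = y := by
    intro μ y hy
    rw [hTx, hφx y hy, mul_zero, zero_smul, add_zero]
  have hpres : ∀ μ l, PresAt (T μ) (x l) := by
    intro μ l
    refine (hs l).presAt (hTH μ _ (hxH l)) fun y hy => ?_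
    rw [hTx, map_add, map_smul, hy, hfv l, smul_zero, add_zero]
  -- dichotomy
  have hdich : ∀ (μ : ℝ) (p : X), ‖p‖ = 1 → (∀ z, ‖T μ p‖ * ‖z‖ ≤ ‖T μ z‖) → ‖T μ p‖ < 1 →
      p ∉ H ∧ ((∀ l, BJ p (x l)) ∨ ∃ c : ℝ, p = c • v) := by
    intro μ p hp hmin hlt1
    have hpH : p ∉ H := by
      intro h
      rw [hTH μ p h, hp] at hlt1
      exact lt_irrefl _ hlt1
    refine ⟨hpH, ?_⟩
    by_contra hcon
    push Not at hcon
    obtain ⟨h1, h2⟩ := hcon
    have h3 : ∃ j, ¬ BJ (x j) p := by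
      by_contra hall
      push Not at hall
      obtain ⟨c, hc⟩ := hker p fun l => (hs l).BJ_iff.1 (hall l)
      exact h2 c hc
    have hp0 : p ≠ 0 := by
      intro h
      rw [h, norm_zero] at hp
      exact zero_ne_one hp
    have hpr : PresAt (T μ) p := presAt_of_min hp0 fun z => by
      rw [hp, mul_one]
      exact hmin z
    obtain ⟨c, hc⟩ := hK m hm x p hli hpH hno h1 h3 (T μ) hpr (hpres μ)
    have h4 := hc (x l)
    rw [hTH μ _ (hxH l)] at h4
    have h5 : 0 < ‖x l‖ := norm_pos_iff.2 (hx0 l)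
    have h6 : c = 1 := by
      have : (c - 1) * ‖x l‖ = 0 := by linarith
      rcases mul_eq_zero.1 this with h7 | h7
      · linarith
      · exact absurd h7 h5.ne'
    have h7 := hc p
    rw [h6, hp, one_mul] at h7
    linarith
  -- the case of a minimum on the line of `v`
  have hbeta : ∀ (μ : ℝ) (c : ℝ), 1 + μ * φ v ≠ 0 → c • v ∉ H → ‖c • v‖ = 1 →
      (∀ z, ‖T μ (c • v)‖ * ‖z‖ ≤ ‖T μ z‖) → ‖T μ (c • v)‖ < 1 → BJ v (x l) := by
    intro μ c hκ hcH hcv hmin hlt1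
    set κ : ℝ := 1 + μ * φ v with hκdef
    have hTv : ∀ h ∈ H, T μ (v + h) = κ • v + h := by
      intro h hh
      rw [hTx, map_add, hφx h hh, add_zero, hκdef, add_smul, one_smul]
      abel
    have h1 : T μ (c • v) = c • κ • v := by
      rw [map_smul]
      congr 1
      have := hTv 0 H.zero_mem
      simpa using this
    have h2 : ‖T μ (c • v)‖ = |κ| := by
      rw [h1, smul_comm, norm_smul, hcv, mul_one, Real.norm_eq_abs]
    rw [h2] at hlt1
    have hκ' : 0 < |κ| := abs_pos.2 hκ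
    have h3 : ∀ h ∈ H, ‖v + κ • h‖ ≤ ‖v + h‖ := by
      intro h hh
      have h4 := hmin (v + κ • h)
      rw [hTv _ (H.smul_mem κ hh), ← smul_add, norm_smul, h2, Real.norm_eq_abs] at h4
      exact le_of_mul_le_mul_left h4 hκ'
    intro t
    have h5 : ∀ k : ℕ, ‖v + (κ ^ k) • (t • x l)‖ ≤ ‖v + t • x l‖ := by
      intro k
      induction k with
      | zero => simp
      | succ k ih =>
        refine le_trans ?_ ih
        have h6 := h3 ((κ ^ k) • (t • x l)) (H.smul_mem _ (H.smul_mem _ (hxH l)))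
        rwa [smul_smul, ← pow_succ'] at h6
    have h7 : Tendsto (fun k : ℕ => ‖v + (κ ^ k) • (t • x l)‖) atTop (𝓝 ‖v‖) := by
      have h8 : Tendsto (fun k : ℕ => κ ^ k) atTop (𝓝 0) :=
        tendsto_pow_atTop_nhds_zero_of_abs_lt_one hlt1
      have h9 : Tendsto (fun k : ℕ => v + (κ ^ k) • (t • x l)) atTop
          (𝓝 (v + (0 : ℝ) • (t • x l))) := (h8.smul_const _).const_add v
      rw [zero_smul, add_zero] at h9
      exact h9.norm
    exact le_of_tendsto' h7 h5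
  by_contra hcontra
  refine hcontra (BJ_of_approx hv fun ε hε hε1 => ?_)
  obtain ⟨μ, hκ, y, hy0, hy⟩ : ∃ μ : ℝ, 1 + μ * φ v ≠ 0 ∧ ∃ y : X, y ≠ 0 ∧
      ‖T μ y‖ < ε * ‖y‖ := by
    by_cases hφv : φ v = 0
    · obtain ⟨w, hw⟩ := LinearMap.surjective hφ 1
      have hw0 : w ≠ 0 := by
        rintro rfl
        simp at hw
      set μ : ℝ := (‖w‖ / ε + ‖w‖ + 1) / ‖v‖ with hμ
      have hμ0 : 0 ≤ μ := by positivity
      refine ⟨μ, by simp [hφv], w - μ • v, ?_, ?_⟩
      · intro h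
        have h1 : φ (w - μ • v) = 0 := by rw [h, map_zero]
        rw [map_sub, map_smul, hφv, hw] at h1
        simp at h1
      · have h1 : T μ (w - μ • v) = w := by
          rw [hTx, map_sub, map_smul, hφv, hw]
          simp
        have h2 : ‖μ • v‖ ≤ ‖w - μ • v‖ + ‖w‖ := by
          calc ‖μ • v‖ = ‖w - (w - μ • v)‖ := by rw [sub_sub_cancel]
            _ ≤ ‖w‖ + ‖w - μ • v‖ := norm_sub_le _ _
            _ = _ := add_comm _ _
        have h3 : ‖μ • v‖ = ‖w‖ / ε + ‖w‖ + 1 := by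
          rw [norm_smul, Real.norm_of_nonneg hμ0, hμ, div_mul_cancel₀ _ hv'.ne']
        have h4 : ‖w‖ / ε < ‖w - μ • v‖ := by linarith
        rw [h1]
        rw [div_lt_iff₀ hε] at h4
        linarith
    · refine ⟨(ε / 2 - 1) / φ v, ?_, v, hv, ?_⟩
      · rw [div_mul_cancel₀ _ hφv]
        intro h
        linarith
      · rw [hTx, div_mul_cancel₀ _ hφv]
        have : v + (ε / 2 - 1) • v = (ε / 2) • v := by
          rw [sub_smul, one_smul]
          abel
        rw [this, norm_smul, Real.norm_of_nonneg (by linarith)]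
        nlinarith
  obtain ⟨p, hp, hmin⟩ := exists_min (T μ)
  have hTp : ‖T μ p‖ < ε := by
    have h1 := (hmin y).trans_lt hy
    exact lt_of_mul_lt_mul_right h1 (norm_nonneg _)
  obtain ⟨hpH, h1 | ⟨c, hc⟩⟩ := hdich μ p hp hmin (hTp.trans hε1)
  · refine ⟨p, -(μ * φ p), hp, ?_, h1 l⟩
    rw [neg_smul, sub_neg_eq_add, ← hTx]
    exact hTp
  · rw [hc] at hpH hp hmin hTp
    exact absurd (hbeta μ c hκ hpH hp hmin (hTp.trans hε1)) hcontra

end Pool.Agent.H68.PK
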