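import Pool.Agent.H68.PKStar

/-!
Perturbation of tuples of smooth points, and the existence of common norming directions.
-/

namespace Pool.Agent.H68.PK

open Module Set Filter Topology Submodule MeasureTheory

variable {X : Type*} [NormedAddCommGroup X] [NormedSpace ℝ X]

/-- The norm is nearly differentiable at `v` in the direction `k`. -/
def Osc (ε : ℝ) (v k : X) : Prop :=
  ∃ t : ℝ, 0 < t ∧ ‖v + t • k‖ + ‖v - t • k‖ - 2 * ‖v‖ < ε * t

theorem isOpen_osc (ε : ℝ) : IsOpen {p : X × X | Osc ε p.1 p.2} := by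
  have h : {p : X × X | Osc ε p.1 p.2} = ⋃ t : ℝ, {p : X × X | 0 < t ∧
      ‖p.1 + t • p.2‖ + ‖p.1 - t • p.2‖ - 2 * ‖p.1‖ < ε * t} := by
    ext p
    simp [Osc]
  rw [h]
  refine isOpen_iUnion fun t => ?_
  by_cases ht : 0 < t
  · simp only [ht, true_and]
    exact isOpen_lt (by fun_prop) (by fun_prop)
  · simp [ht]

theorem Osc.sub_lt {ε : ℝ} {v k : X} (h : Osc ε v k) {g g' : StrongDual ℝ X} (hg : ‖g‖ ≤ 1)
    (hgv : g v = ‖v‖) (hg' : ‖g'‖ ≤ 1) (hgv' : g' v = ‖v‖) : g k - g' k < ε := by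
  obtain ⟨t, ht, hlt⟩ := h
  have h1 := functional_le hg (v + t • k)
  have h2 := functional_le hg' (v - t • k)
  rw [map_add, map_smul, hgv, smul_eq_mul] at h1
  rw [map_sub, map_smul, hgv', smul_eq_mul] at h2
  have h3 : t * (g k - g' k) < t * ε := by linarith
  exact lt_of_mul_lt_mul_left h3 ht.le

theorem Osc.smul_right {ε : ℝ} {v k : X} {c : ℝ} (hc : c ≠ 0) (h : Osc (ε * |c|) v k) :
    Osc ε v (c⁻¹ • k) := by
  obtain ⟨t, ht, hlt⟩ := h
  have hc' : 0 < |c| := abs_pos.2 hc
  refine ⟨t * |c|, by positivity, ?_⟩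
  rcases abs_choice c with h1 | h1
  · have h2 : (t * |c|) • c⁻¹ • k = t • k := by
      rw [smul_smul, h1, mul_assoc, mul_inv_cancel₀ hc, mul_one]
    rw [h2]
    calc _ < ε * |c| * t := hlt
      _ = _ := by ring
  · have h2 : (t * |c|) • c⁻¹ • k = -(t • k) := by
      rw [smul_smul, h1, mul_assoc, neg_mul, mul_inv_cancel₀ hc, mul_neg, mul_one, neg_smul]
    rw [h2, ← sub_eq_add_neg, sub_neg_eq_add]
    calc _ < ε * |c| * t := by linarith
      _ = _ := by ring

theorem countable_bad (v k : X) : {s : ℝ | ¬ ∀ ε : ℝ, 0 < ε → Osc ε (v + s • k) k}.Countable := by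
  have hex : ∀ s : ℝ, ∃ g : StrongDual ℝ X, ‖g‖ ≤ 1 ∧ g (v + s • k) = ‖v + s • k‖ := fun s =>
    exists_dual_vector'' ℝ (v + s • k)
  choose G hG hGs using hex
  have hineq : ∀ s t : ℝ, ‖v + s • k‖ + (t - s) * G s k ≤ ‖v + t • k‖ := by
    intro s t
    have h1 := functional_le (hG s) (v + t • k)
    have h2 : v + t • k = (v + s • k) + (t - s) • k := by
      rw [sub_smul]
      abel
    rw [h2, map_add, hGs, map_smul, smul_eq_mul, ← h2] at h1
    exact h1
  have hmono : Monotone fun s => G s k := by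
    intro s t hst
    rcases eq_or_lt_of_le hst with h | h
    · rw [h]
    · have h1 := hineq s t
      have h2 := hineq t s
      have h3 : (t - s) * G s k ≤ (t - s) * G t k := by linarith
      exact le_of_mul_le_mul_left h3 (by linarith)
  refine hmono.countable_not_continuousAt.mono ?_
  intro s hs
  change ¬ ContinuousAt (fun s => G s k) s
  intro hcont
  refine hs fun ε hε => ?_
  rw [Metric.continuousAt_iff] at hcont
  obtain ⟨δ, hδ, hδ'⟩ := hcont (ε / 2) (by positivity)
  have h1 := hδ' (x := s + δ / 2) (by rw [Real.dist_eq, add_sub_cancel_left, abs_of_pos] <;> linarith)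
  have h2 := hδ' (x := s - δ / 2)
    (by rw [Real.dist_eq, sub_sub_cancel_left, abs_neg, abs_of_pos] <;> linarith)
  rw [Real.dist_eq, abs_lt] at h1 h2
  refine ⟨δ / 2, by linarith, ?_⟩
  have h3 := hineq (s + δ / 2) s
  have h4 := hineq (s - δ / 2) s
  have e1 : v + s • k + (δ / 2) • k = v + (s + δ / 2) • k := by rw [add_smul]; abel
  have e2 : v + s • k - (δ / 2) • k = v + (s - δ / 2) • k := by rw [sub_smul]; abel
  rw [e1, e2]
  nlinarith

variable [FiniteDimensional ℝ X]

/-- Generic points. -/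
theorem exists_generic (hK : KP X) (h2 : 2 ≤ finrank ℝ X) {C : Set X} (hC : C.Countable)
    (hC0 : ∀ u ∈ C, u ≠ 0) {U : Set X} (hU : IsOpen U) (hne : U.Nonempty) :
    ∃ x ∈ U, Sm x ∧ ∀ u ∈ C, ¬ BJ x u := by
  let _ : MeasurableSpace X := borel X
  have _ : BorelSpace X := ⟨rfl⟩
  let μ : Measure X := Measure.addHaar
  have h1 : ∀ᵐ x ∂μ, ∀ u ∈ C, ¬ BJ x u := by
    rw [ae_ball_iff hC]
    intro u hu
    exact measure_eq_zero_iff_ae_notMem.1 (measure_BJ_eq_zero hK h2 μ (hC0 u hu))
  have h3 : Dense {x | Sm x ∧ ∀ u ∈ C, ¬ BJ x u} :=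
    Measure.dense_of_ae (μ := μ) ((ae_sm μ).and h1)
  obtain ⟨x, hx1, hx2⟩ := h3.inter_open_nonempty U hU hne
  exact ⟨x, hx1, hx2.1, hx2.2⟩

theorem exists_kernel {m : ℕ} (hm : finrank ℝ X = m + 1) (f : Fin m → StrongDual ℝ X) :
    ∃ v : X, v ≠ 0 ∧ ∀ l, f l v = 0 := by
  let F : X →ₗ[ℝ] (Fin m → ℝ) := LinearMap.pi fun l => (f l : X →ₗ[ℝ] ℝ)
  have h1 : LinearMap.ker F ≠ ⊥ := by
    apply LinearMap.ker_ne_bot_of_finrank_lt
    rw [hm, finrank_fin_fun]
    exact Nat.lt_succ_self m
  obtain ⟨v, hv, hv0⟩ := Submodule.exists_mem_ne_zero_of_ne_bot h1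
  refine ⟨v, hv0, fun l => ?_⟩
  have := congrFun (show F v = 0 from hv) l
  exact this

theorem base_tuple (hK : KP X) {m : ℕ} (hm : finrank ℝ X = m + 1) (hm0 : 0 < m)
    (p : Fin m → X) {η : ℝ} (hη : 0 < η) : ∀ i : ℕ, i ≤ m → ∃ x k : Fin m → X,
      (∀ l, Sm (x l)) ∧ (∀ l, ‖x l - p l‖ < η) ∧
      ∀ l j : Fin m, (l : ℕ) < i → (j : ℕ) < i → D (x l) (k j) = if l = j then 1 else 0 := by
  have h2 : 2 ≤ finrank ℝ X := by omega
  have hball : ∀ (C : Set X), C.Countable → (∀ u ∈ C, u ≠ 0) → ∀ q : X,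
      ∃ x, ‖x - q‖ < η ∧ Sm x ∧ ∀ u ∈ C, ¬ BJ x u := by
    intro C hC hC0 q
    obtain ⟨x, hx, h⟩ := exists_generic hK h2 hC hC0 Metric.isOpen_ball ⟨q, Metric.mem_ball_self hη⟩
    exact ⟨x, by simpa [dist_eq_norm] using hx, h⟩
  intro i
  induction i with
  | zero =>
    intro _
    have hex : ∀ l, ∃ x, ‖x - p l‖ < η ∧ Sm x := fun l => by
      obtain ⟨x, h1, h3, -⟩ := hball ∅ countable_empty (by simp) (p l)
      exact ⟨x, h1, h3⟩
    choose x hx hx' using hex
    exact ⟨x, x, hx', hx, fun l j hl => absurd hl (Nat.not_lt_zero _)⟩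
  | succ i ih =>
    intro him
    obtain ⟨x, k, hsm, hnear, hbi⟩ := ih (by omega)
    obtain ⟨u, hu0, hu⟩ := exists_kernel hm fun l => D (x l)
    obtain ⟨z, hz, hzs, hzu⟩ := hball {u} (countable_singleton u)
      (fun w hw => by rw [mem_singleton_iff.1 hw]; exact hu0) (p ⟨i, him⟩)
    have hzu' : D z u ≠ 0 := fun h => hzu u rfl (hzs.BJ_iff.2 h)
    set i' : Fin m := ⟨i, him⟩ with hi'
    refine ⟨Function.update x i' z, Function.update (fun j => k j - (D z (k j) / D z u) • u) i'
      ((D z u)⁻¹ • u), ?_, ?_, ?_⟩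
    · intro l
      by_cases h : l = i'
      · rw [h, Function.update_self]
        exact hzs
      · rw [Function.update_of_ne h]
        exact hsm l
    · intro l
      by_cases h : l = i'
      · rw [h, Function.update_self]
        exact hz
      · rw [Function.update_of_ne h]
        exact hnear l
    · intro l j hl hj
      by_cases hli : l = i'
      · rw [hli, Function.update_self]
        by_cases hji : j = i'
        · rw [hji, Function.update_self, map_smul, smul_eq_mul, inv_mul_cancel₀ hzu', if_pos rfl]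
        · rw [Function.update_of_ne hji, map_sub, map_smul, smul_eq_mul, div_mul_cancel₀ _ hzu',
            sub_self, if_neg (Ne.symm hji)]
      · have hl' : (l : ℕ) < i := by
          have : (l : ℕ) ≠ i := fun h => hli (Fin.ext h)
          omega
        rw [Function.update_of_ne hli]
        by_cases hji : j = i'
        · rw [hji, Function.update_self, map_smul, hu l, smul_zero, if_neg hli]
        · have hj' : (j : ℕ) < i := by
            have : (j : ℕ) ≠ i := fun h => hji (Fin.ext h)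
            omega
          rw [Function.update_of_ne hji, map_sub, map_smul, hu l, smul_zero, sub_zero]
          exact hbi l j hl' hj'

theorem good_tuple (hK : KP X) {m : ℕ} (hm : finrank ℝ X = m + 1) (hm0 : 0 < m)
    (p : Fin m → X) {η ε : ℝ} (hη : 0 < η) (hε : 0 < ε) : ∀ i : ℕ, i ≤ m →
      ∃ (x k : Fin m → X) (v : X),
      (∀ l, Sm (x l)) ∧ (∀ l, ‖x l - p l‖ < η) ∧
      (∀ l j : Fin m, D (x l) (k j) = if l = j then 1 else 0) ∧ v ≠ 0 ∧ (∀ l, D (x l) v = 0) ∧
      ∀ j : Fin m, (j : ℕ) < i → Osc ε v (k j) := by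
  have h2 : 2 ≤ finrank ℝ X := by omega
  intro i
  induction i with
  | zero =>
    intro _
    obtain ⟨x, k, h1, h3, h4⟩ := base_tuple hK hm hm0 p hη m le_rfl
    obtain ⟨v, hv0, hv⟩ := exists_kernel hm fun l => D (x l)
    exact ⟨x, k, v, h1, h3, fun l j => h4 l j l.2 j.2, hv0, hv,
      fun j hj => absurd hj (Nat.not_lt_zero _)⟩
  | succ i ih =>
    intro him
    obtain ⟨x, k, v, hsm, hnear, hbi, hv0, hv, hosc⟩ := ih (by omega)
    set i' : Fin m := ⟨i, him⟩ with hi'
    have hii : D (x i') (k i') = 1 := by rw [hbi, if_pos rfl]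
    -- the bad set
    set C : Set X := (fun s : ℝ => v + s • k i') ''
      {s : ℝ | ¬ ∀ ε : ℝ, 0 < ε → Osc ε (v + s • k i') (k i')} with hCdef
    have hC : C.Countable := (countable_bad v (k i')).image _
    have hC0 : ∀ u ∈ C, u ≠ 0 := by
      rintro _ ⟨s, -, rfl⟩ h0
      have h3 : D (x i') (v + s • k i') = s := by
        rw [map_add, map_smul, hv, hii, smul_eq_mul, mul_one, zero_add]
      have h4 : s = 0 := by
        rw [← h3]
        change v + s • k i' = 0 at h0
        rw [h0, map_zero]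
      change v + s • k i' = 0 at h0
      rw [h4, zero_smul, add_zero] at h0
      exact hv0 h0
    -- limits
    have hlim : ∀ y, Tendsto (fun z => D z y) (𝓝[{z | Sm z}] (x i')) (𝓝 (D (x i') y)) :=
      fun y => (hsm i').tendsto_D y
    have hv' : Tendsto (fun z => v - (D z v / D z (k i')) • k i') (𝓝[{z | Sm z}] (x i')) (𝓝 v) := by
      have h3 := ((hlim v).div (hlim (k i')) (by rw [hii]; exact one_ne_zero)).smul_const (k i')
      have h4 := h3.const_sub v
      rw [hv, hii, zero_div, zero_smul, sub_zero] at h4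
      exact h4
    have hk' : ∀ j, j ≠ i' → Tendsto (fun z => k j - (D z (k j) / D z (k i')) • k i')
        (𝓝[{z | Sm z}] (x i')) (𝓝 (k j)) := by
      intro j hj
      have h3 := ((hlim (k j)).div (hlim (k i')) (by rw [hii]; exact one_ne_zero)).smul_const (k i')
      have h4 := h3.const_sub (k j)
      rw [hbi, if_neg (Ne.symm hj), hii, zero_div, zero_smul, sub_zero] at h4
      exact h4
    have hev : ∀ᶠ z in 𝓝[{z | Sm z}] (x i'), D z (k i') ≠ 0 ∧
        v - (D z v / D z (k i')) • k i' ≠ 0 ∧ ‖z - p i'‖ < η ∧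
        ∀ j : Fin m, (j : ℕ) < i → Osc ε (v - (D z v / D z (k i')) • k i')
          (k j - (D z (k j) / D z (k i')) • k i') := by
      refine ((hlim (k i')).eventually_ne (by rw [hii]; exact one_ne_zero)).and
        ((hv'.eventually_ne hv0).and (Eventually.and ?_ ?_))
      · have hc : ContinuousAt (fun z : X => ‖z - p i'‖) (x i') := by fun_prop
        exact (hc.eventually_lt_const (hnear i')).filter_mono nhdsWithin_le_nhds
      · rw [eventually_all]
        intro j
        by_cases hj : (j : ℕ) < i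
        · have hji : j ≠ i' := by
            rintro rfl
            exact lt_irrefl _ hj
          have h3 := hv'.prodMk_nhds (hk' j hji)
          have h4 : {q : X × X | Osc ε q.1 q.2} ∈ 𝓝 (v, k j) :=
            (isOpen_osc ε).mem_nhds (hosc j hj)
          filter_upwards [h3 h4] with z hz _
          exact hz
        · exact Eventually.of_forall fun z h => absurd h hj
    rw [eventually_nhdsWithin_iff, eventually_nhds_iff] at hev
    obtain ⟨U, hU, hUo, hUx⟩ := hev
    obtain ⟨z, hzU, hzs, hzC⟩ := exists_generic hK h2 hC hC0 hUo ⟨x i', hUx⟩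
    obtain ⟨hz1, hz2, hz3, hz4⟩ := hU z hzU hzs
    set v' : X := v - (D z v / D z (k i')) • k i' with hv'def
    have hzv' : D z v' = 0 := by
      rw [hv'def, map_sub, map_smul, smul_eq_mul, div_mul_cancel₀ _ hz1, sub_self]
    have hgood : ∀ ε : ℝ, 0 < ε → Osc ε v' (k i') := by
      by_contra hbad
      have h3 : v' = v + (-(D z v / D z (k i'))) • k i' := by
        rw [neg_smul, ← sub_eq_add_neg]
      refine hzC v' ⟨-(D z v / D z (k i')), ?_, h3.symm⟩ (hzs.BJ_iff.2 hzv')
      change ¬ ∀ ε : ℝ, 0 < ε → Osc ε (v + (-(D z v / D z (k i'))) • k i') (k i')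
      rw [← h3]
      exact hbad
    refine ⟨Function.update x i' z,
      Function.update (fun j => k j - (D z (k j) / D z (k i')) • k i') i'
      ((D z (k i'))⁻¹ • k i'), v', ?_, ?_, ?_, hz2, ?_, ?_⟩
    · intro l
      by_cases h : l = i'
      · rw [h, Function.update_self]
        exact hzs
      · rw [Function.update_of_ne h]
        exact hsm l
    · intro l
      by_cases h : l = i'
      · rw [h, Function.update_self]
        exact hz3
      · rw [Function.update_of_ne h]
        exact hnear l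
    · intro l j
      by_cases hli : l = i'
      · rw [hli, Function.update_self]
        by_cases hji : j = i'
        · rw [hji, Function.update_self, map_smul, smul_eq_mul, inv_mul_cancel₀ hz1, if_pos rfl]
        · rw [Function.update_of_ne hji, map_sub, map_smul, smul_eq_mul, div_mul_cancel₀ _ hz1,
            sub_self, if_neg (Ne.symm hji)]
      · rw [Function.update_of_ne hli]
        by_cases hji : j = i'
        · rw [hji, Function.update_self, map_smul, hbi, if_neg hli, smul_zero]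
        · rw [Function.update_of_ne hji, map_sub, map_smul, hbi, hbi, if_neg hli, smul_zero,
            sub_zero]
    · intro l
      by_cases hli : l = i'
      · rw [hli, Function.update_self]
        exact hzv'
      · rw [Function.update_of_ne hli, hv'def, map_sub, map_smul, hv, hbi, if_neg hli, smul_zero,
          sub_zero]
    · intro j hj
      by_cases hji : j = i'
      · rw [hji, Function.update_self]
        exact (hgood (ε * |D z (k i')|) (by have := abs_pos.2 hz1; positivity)).smul_right hz1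
      · rw [Function.update_of_ne hji]
        refine hz4 j ?_
        have : (j : ℕ) ≠ i := fun h => hji (Fin.ext h)
        omega

/-- The kernel of the support functionals of a biorthogonal tuple is a line. -/
theorem kernel_line {m : ℕ} (hm : finrank ℝ X = m + 1) {f : Fin m → StrongDual ℝ X}
    {k : Fin m → X} (hbi : ∀ l j : Fin m, f l (k j) = if l = j then 1 else 0) {v : X}
    (hv0 : v ≠ 0) (hv : ∀ l, f l v = 0) (y : X) (hy : ∀ l, f l y = 0) : ∃ c : ℝ, y = c • v := by
  let F : X →ₗ[ℝ] (Fin m → ℝ) := LinearMap.pi fun l => (f l : X →ₗ[ℝ] ℝ)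
  have hF : ∀ z l, F z l = f l z := fun z l => rfl
  have h1 : LinearMap.range F = ⊤ := by
    rw [LinearMap.range_eq_top]
    intro a
    refine ⟨∑ j, a j • k j, ?_⟩
    funext l
    rw [hF, map_sum]
    simp [hbi]
  have h2 := LinearMap.finrank_range_add_finrank_ker F
  rw [h1, finrank_top, finrank_fin_fun, hm] at h2
  have h3 : finrank ℝ (LinearMap.ker F) = 1 := by omega
  have hvm : v ∈ LinearMap.ker F := by
    change F v = 0
    funext l
    exact hv l
  have hym : y ∈ LinearMap.ker F := by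
    change F y = 0
    funext l
    exact hy l
  have h4 : (⟨v, hvm⟩ : LinearMap.ker F) ≠ 0 := by
    intro h
    exact hv0 (congrArg Subtype.val h)
  obtain ⟨c, hc⟩ := (finrank_eq_one_iff_of_nonzero' _ h4).1 h3 ⟨y, hym⟩
  exact ⟨c, (congrArg Subtype.val hc).symm⟩

omit [FiniteDimensional ℝ X] in
theorem D_apply_le {x : X} (hx : Sm x) (y : X) : |D x y| ≤ ‖y‖ := by
  calc |D x y| = ‖D x y‖ := rfl
    _ ≤ ‖D x‖ * ‖y‖ := (D x).le_opNorm y
    _ ≤ 1 * ‖y‖ := mul_le_mul_of_nonneg_right hx.D_norm.1 (norm_nonneg _)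
    _ = _ := one_mul _

theorem approx (hK : KP X) {m : ℕ} (hm : finrank ℝ X = m + 1) (hm0 : 0 < m)
    {p : Fin m → X} (hli : LinearIndependent ℝ p) (hclose : ∀ i j, ‖p i - p j‖ < ‖p i‖)
    {ε : ℝ} (hε : 0 < ε) : ∃ (x : Fin m → X) (v : X) (g : StrongDual ℝ X), ‖v‖ = 1 ∧
      (∀ l, ‖x l - p l‖ < ε) ∧ (∀ l, BJ (x l) v) ∧ ‖g‖ ≤ 1 ∧ g v = 1 ∧ ∀ l, |g (x l)| ≤ ε := by
  -- an open condition
  have hopen : ∀ᶠ x : Fin m → X in 𝓝 p, LinearIndependent ℝ x ∧ ∀ i j, ‖x i - x j‖ < ‖x i‖ := by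
    refine Filter.Eventually.and ?_ ?_
    · exact (isOpen_setOfPred_linearIndependent (𝕜 := ℝ) (E := X)).mem_nhds hli
    · rw [eventually_all]
      intro i
      rw [eventually_all]
      intro j
      have hc1 : ContinuousAt (fun x : Fin m → X => ‖x i - x j‖) p := by fun_prop
      have hc2 : ContinuousAt (fun x : Fin m → X => ‖x i‖) p :=
        (continuous_apply i).norm.continuousAt
      exact hc1.eventually_lt hc2 (hclose i j)
  rw [Metric.eventually_nhds_iff] at hopen
  obtain ⟨η₀, hη₀, hη₀'⟩ := hopen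
  set M : ℝ := ∑ j, (‖p j‖ + 1) with hM
  have hM0 : 0 ≤ M := Finset.sum_nonneg fun j _ => by positivity
  have hMj : ∀ j, ‖p j‖ + 1 ≤ M := fun j =>
    Finset.single_le_sum (f := fun j => ‖p j‖ + 1) (fun j _ => by positivity) (Finset.mem_univ j)
  have hmM : 0 < (m : ℝ) * M + 1 := by
    have := mul_nonneg (Nat.cast_nonneg (α := ℝ) m) hM0
    linarith
  set ε' : ℝ := ε / (m * M + 1) with hε'
  have hε'0 : 0 < ε' := div_pos hε hmM
  set η : ℝ := min (min (η₀ / 2) ε) 1 with hη
  have hη0 : 0 < η := by positivity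
  obtain ⟨x, k, v, hsm, hnear, hbi, hv0, hv, hosc⟩ := good_tuple hK hm hm0 p hη0 hε'0 m le_rfl
  have hnear0 : ∀ l, ‖x l - p l‖ < η₀ / 2 := fun l =>
    (hnear l).trans_le ((min_le_left _ _).trans (min_le_left _ _))
  have hnear1 : ∀ l, ‖x l - p l‖ < ε := fun l =>
    (hnear l).trans_le ((min_le_left _ _).trans (min_le_right _ _))
  have hnear2 : ∀ l, ‖x l - p l‖ < 1 := fun l => (hnear l).trans_le (min_le_right _ _)
  have hdist : dist x p < η₀ := by
    refine lt_of_le_of_lt ((dist_pi_le_iff (by positivity : (0 : ℝ) ≤ η₀ / 2)).2 fun l => ?_)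
      (half_lt_self hη₀)
    rw [dist_eq_norm]
    exact (hnear0 l).le
  obtain ⟨hxli, hxclose⟩ := hη₀' hdist
  have hker := kernel_line hm hbi hv0 hv
  have hstar : ∀ l, BJ v (x l) := star hK hm hm0 hsm hxli
    (fun i j => not_BJ_of_norm_sub_lt (hxclose i j)) hv0 hv hker
  have hv' : 0 < ‖v‖ := norm_pos_iff.2 hv0
  obtain ⟨g, hg, hgv⟩ := exists_dual_vector'' ℝ v
  have hgv' : g v = ‖v‖ := hgv
  refine ⟨x, ‖v‖⁻¹ • v, g, ?_, hnear1, ?_, hg, ?_, ?_⟩
  · rw [norm_smul, norm_inv, norm_norm, inv_mul_cancel₀ hv'.ne']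
  · intro l
    have := ((hsm l).BJ_iff.2 (hv l)).smul 1 ‖v‖⁻¹
    rwa [one_smul] at this
  · rw [map_smul, hgv', smul_eq_mul, inv_mul_cancel₀ hv'.ne']
  · intro l
    obtain ⟨g', hg', hgv'', hgx'⟩ := exists_functional_of_BJ (hstar l)
    obtain ⟨c, hc⟩ := hker (x l - ∑ j, D (x j) (x l) • k j) (by
      intro i
      rw [map_sub, map_sum]
      simp [hbi])
    have hxl : x l = ∑ j, D (x j) (x l) • k j + c • v := by
      rw [← hc]
      abel
    have h1 : g (x l) = ∑ j, D (x j) (x l) * (g (k j) - g' (k j)) := by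
      have h2 : g (x l) = g (x l) - g' (x l) := by rw [hgx', sub_zero]
      rw [h2]
      conv_lhs => rw [hxl]
      rw [map_add, map_add, map_sum, map_sum, map_smul, map_smul, hgv', hgv'']
      simp only [map_smul, smul_eq_mul]
      rw [add_sub_add_right_eq_sub, ← Finset.sum_sub_distrib]
      refine Finset.sum_congr rfl fun j _ => by ring
    have h3 : ∀ j, |D (x j) (x l) * (g (k j) - g' (k j))| ≤ M * ε' := by
      intro j
      rw [abs_mul]
      have h4 : |D (x j) (x l)| ≤ M := by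
        refine (D_apply_le (hsm j) _).trans (le_trans ?_ (hMj l))
        calc ‖x l‖ = ‖p l + (x l - p l)‖ := by rw [add_sub_cancel]
          _ ≤ ‖p l‖ + ‖x l - p l‖ := norm_add_le _ _
          _ ≤ ‖p l‖ + 1 := by linarith [hnear2 l]
      have h5 : |g (k j) - g' (k j)| ≤ ε' := by
        rw [abs_le]
        have h6 := (hosc j j.2).sub_lt hg hgv' hg' hgv''
        have h7 := (hosc j j.2).sub_lt hg' hgv'' hg hgv'
        constructor <;> linarith
      exact mul_le_mul h4 h5 (abs_nonneg _) hM0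
    calc |g (x l)| ≤ ∑ j, |D (x j) (x l) * (g (k j) - g' (k j))| := by
          rw [h1]
          exact Finset.abs_sum_le_sum_abs _ _
      _ ≤ ∑ _j : Fin m, M * ε' := Finset.sum_le_sum fun j _ => h3 j
      _ = (m * M) * ε' := by
        rw [Finset.sum_const, Finset.card_univ, Fintype.card_fin, nsmul_eq_mul]
        ring
      _ ≤ (m * M + 1) * ε' := mul_le_mul_of_nonneg_right (by linarith) hε'0.le
      _ = ε := mul_div_cancel₀ ε hmM.ne'

/-- A common norming direction. -/
theorem exists_norming (hK : KP X) {m : ℕ} (hm : finrank ℝ X = m + 1) (hm0 : 0 < m)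
    {p : Fin m → X} (hli : LinearIndependent ℝ p) (hclose : ∀ i j, ‖p i - p j‖ < ‖p i‖) :
    ∃ v : X, ‖v‖ = 1 ∧ (∀ h ∈ span ℝ (range p), 1 ≤ ‖v + h‖) ∧ ∀ l, BJ (p l) v := by
  have hex : ∀ r : ℕ, ∃ (x : Fin m → X) (v : X) (g : StrongDual ℝ X), ‖v‖ = 1 ∧
      (∀ l, ‖x l - p l‖ < 1 / ((r : ℝ) + 1)) ∧ (∀ l, BJ (x l) v) ∧ ‖g‖ ≤ 1 ∧ g v = 1 ∧
      ∀ l, |g (x l)| ≤ 1 / ((r : ℝ) + 1) := fun r =>
    approx hK hm hm0 hli hclose (by positivity)
  choose x v g hv hx hBJ hg hgv hgx using hex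
  obtain ⟨w, hw, φ, hφ, hlim⟩ := (isCompact_sphere (0 : X) 1).tendsto_subseq
    (x := v) (fun r => by simpa using hv r)
  have hxlim : ∀ l, Tendsto (fun r => x r l) atTop (𝓝 (p l)) := by
    intro l
    rw [tendsto_iff_norm_sub_tendsto_zero]
    exact squeeze_zero (fun r => norm_nonneg _) (fun r => (hx r l).le)
      tendsto_one_div_add_atTop_nhds_zero_nat
  refine ⟨w, by simpa using hw, ?_, ?_⟩
  · intro h hh
    obtain ⟨c, rfl⟩ := (Submodule.mem_span_range_iff_exists_fun ℝ).1 hh
    have h1 : ∀ r : ℕ, 1 - (∑ l, |c l|) * (1 / ((r : ℝ) + 1)) ≤ ‖v r + ∑ l, c l • x r l‖ := by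
      intro r
      refine le_trans ?_ (functional_le (hg r) _)
      rw [map_add, hgv, map_sum]
      have h2 : |∑ l, g r (c l • x r l)| ≤ (∑ l, |c l|) * (1 / ((r : ℝ) + 1)) := by
        rw [Finset.sum_mul]
        refine (Finset.abs_sum_le_sum_abs _ _).trans (Finset.sum_le_sum fun l _ => ?_)
        rw [map_smul, smul_eq_mul, abs_mul]
        exact mul_le_mul_of_nonneg_left (hgx r l) (abs_nonneg _)
      linarith [neg_abs_le (∑ l, g r (c l • x r l))]
    have h3 : Tendsto (fun r : ℕ => 1 - (∑ l, |c l|) * (1 / ((φ r : ℝ) + 1))) atTop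
        (𝓝 (1 - (∑ l, |c l|) * 0)) := by
      have h4 : Tendsto (fun r : ℕ => 1 / ((φ r : ℝ) + 1)) atTop (𝓝 0) :=
        (tendsto_one_div_add_atTop_nhds_zero_nat (𝕜 := ℝ)).comp hφ.tendsto_atTop
      exact (h4.const_mul _).const_sub 1
    have h5 : Tendsto (fun r : ℕ => ‖v (φ r) + ∑ l, c l • x (φ r) l‖) atTop
        (𝓝 ‖w + ∑ l, c l • p l‖) := by
      refine (Tendsto.add hlim (tendsto_finsetSum _ fun l _ => ?_)).norm
      exact ((hxlim l).comp hφ.tendsto_atTop).const_smul (c l)
    rw [mul_zero, sub_zero] at h3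
    exact le_of_tendsto_of_tendsto' h3 h5 fun r => h1 (φ r)
  · intro l
    exact BJ.of_tendsto ((hxlim l).comp hφ.tendsto_atTop) hlim fun r => hBJ (φ r) l

end Pool.Agent.H68.PK
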